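import Pool.Agent.Lib.MP_688fd0_co.SQ2.H98.Collar

/-!
Rectangular windows.
-/

set_option autoImplicit false

namespace Pool.Agent.Lib.MP_688fd0_co.SQ2

open Pool.Agent.Lib.MP_688fd0_co.OSF Finset

universe u v w

variable {Q : Type u} [Group Q] [DecidableEq Q] {B : Lb.{u, v} Q}

/-- The union of `n` levels. -/
def lev (a : B.L) (L : Finset Q) (n : ℕ) : Multiset Q := ∑ i ∈ range n, (rt L (B.q a ^ i)).val

omit [DecidableEq Q] in
theorem rt_val (L : Finset Q) (y : Q) : (rt L y).val = ∑ x ∈ L, {x * y} := by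
  have h1 : ∑ x ∈ rt L y, ({x} : Multiset Q) = (rt L y).val := by
    rw [Finset.sum_multiset_singleton]
  rw [← h1]
  unfold rt
  rw [Finset.sum_map]
  rfl

omit [DecidableEq Q] in
theorem lev_eq (a : B.L) (L : Finset Q) (n : ℕ) :
    lev a L n = ∑ y ∈ L, ∑ i ∈ range n, {y * B.q a ^ i} := by
  unfold lev
  rw [Finset.sum_comm]
  exact Finset.sum_congr rfl fun i _ => rt_val _ _

/-- A rectangular window of height `M`. -/
structure Rect (a : B.L) (X : TW B) (M : ℕ) : Prop where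
  top : X.L₁ = rt X.L₀ (B.q a ^ M)
  reg : X.R = lev a X.L₀ M

/-- RECT: a window whose frontiers are not level is made rectangular. `s y` is the height of the bottom vertex of the
strand of `y ∈ L`. -/
theorem rect (X : TW B) (a : B.L) (m : ℕ) (hX : Rect a X m) (L : Finset Q) (s : Q → ℕ) (M : ℕ)
    (hm : ∀ y ∈ L, y * B.q a ^ s y ∈ X.L₀)
    (hn : ∀ y ∈ L, ∀ y' ∈ L, y * B.q a ^ s y = y' * B.q a ^ s y' → y = y')
    (hs : ∀ x ∈ X.L₀, ∃ y ∈ L, y * B.q a ^ s y = x)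
    (hM : ∀ y ∈ L, s y + m ≤ M) (v₀ v₁ y₀ y₁ : Q) (hv₀ : v₀ ∈ L) (hv₁ : v₁ ∈ L) (hy₀ : y₀ ∈ L) (hy₁ : y₁ ∈ L)
    (e₀ : v₀ * B.q a ^ s v₀ = X.u₀) (e₁ : v₁ * B.q a ^ s v₁ = X.u₁)
    (d₀ : y₀ * B.q a ^ s y₀ * B.q a ^ m = X.w₀) (d₁ : y₁ * B.q a ^ s y₁ * B.q a ^ m = X.w₁) :
    ∃ Y : TW B, Rect a Y M ∧ Y.L₀ = L ∧ Y.u₀ = v₀ ∧ Y.u₁ = v₁ ∧ Y.w₀ = y₀ * B.q a ^ M ∧
      Y.w₁ = y₁ * B.q a ^ M ∧ Y.cup = reps a (s v₀) ++ (X.cup ++ reps (B.inv a) (s v₁)) ∧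
      Y.cap = reps (B.inv a) (M - m - s y₀) ++ (X.cap ++ reps a (M - m - s y₁)) ∧
      ∀ y ∈ L, y ≠ v₀ → y ≠ v₁ → ∀ y' ∈ L, X.f (y * B.q a ^ s y) = y' * B.q a ^ s y' * B.q a ^ m →
        Y.f y = y' * B.q a ^ M ∧
        Y.path y = reps a (s y) ++ X.path (y * B.q a ^ s y) ++ reps a (M - m - s y') := by
  classical
  -- the base vertex of a top vertex
  have hb : ∃ b : Q → Q, ∀ y ∈ L, b (y * B.q a ^ s y * B.q a ^ m) = y := by
    refine ⟨fun v => if h : ∃ y ∈ L, y * B.q a ^ s y * B.q a ^ m = v then h.choose else v, ?_⟩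
    intro y hy
    have hex : ∃ y' ∈ L, y' * B.q a ^ s y' * B.q a ^ m = y * B.q a ^ s y * B.q a ^ m := ⟨y, hy, rfl⟩
    show (if h : _ then _ else _) = y
    rw [dif_pos hex]
    exact hn _ hex.choose_spec.1 _ hy (mul_right_cancel hex.choose_spec.2)
  obtain ⟨b, hb⟩ := hb
  have hsum : ∀ y ∈ L, y * B.q a ^ s y * B.q a ^ m * B.q a ^ (M - m - s y) = y * B.q a ^ M := by
    intro y hy
    have := hM y hy
    rw [mul_assoc, mul_assoc, ← pow_add, ← pow_add]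
    congr 2
    omega
  have htop : ∀ v ∈ X.L₁, ∃ y ∈ L, y * B.q a ^ s y * B.q a ^ m = v := by
    intro v hv
    rw [hX.top, mem_rt] at hv
    obtain ⟨y, h1, h2⟩ := hs _ hv
    exact ⟨y, h1, by rw [h2]; group⟩
  set n : Q → ℕ := fun v => M - m - s (b v) with hn'
  have hnb : ∀ y ∈ L, n (y * B.q a ^ s y * B.q a ^ m) = M - m - s y := by
    intro y hy
    rw [hn']
    show M - m - s (b _) = _
    rw [hb y hy]
  set X1 := X.pre a L s v₀ v₁ hv₀ hv₁ e₀ e₁ hm hn hs with hX1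
  have hinj : ∀ y ∈ X1.L₁, ∀ y' ∈ X1.L₁, y * B.q a ^ n y = y' * B.q a ^ n y' → y = y' := by
    intro v hv v' hv' h
    obtain ⟨y, h1, rfl⟩ := htop v hv
    obtain ⟨y', h1', rfl⟩ := htop v' hv'
    rw [hnb y h1, hnb y' h1', hsum y h1, hsum y' h1'] at h
    rw [mul_right_cancel h]
  have hw₀ : X1.w₀ = y₀ * B.q a ^ s y₀ * B.q a ^ m := d₀.symm
  have hw₁ : X1.w₁ = y₁ * B.q a ^ s y₁ * B.q a ^ m := d₁.symm
  refine ⟨X1.post a n hinj, ⟨?_, ?_⟩, rfl, rfl, rfl, ?_, ?_, ?_, ?_, ?_⟩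
  · show X.L₁.image (fun y => y * B.q a ^ n y) = rt L (B.q a ^ M)
    ext v
    rw [mem_rt, Finset.mem_image]
    constructor
    · rintro ⟨w, hw, rfl⟩
      obtain ⟨y, h1, rfl⟩ := htop w hw
      rw [hnb y h1, hsum y h1, mul_inv_cancel_right]
      exact h1
    · intro h
      refine ⟨v * (B.q a ^ M)⁻¹ * B.q a ^ s (v * (B.q a ^ M)⁻¹) * B.q a ^ m, ?_, ?_⟩
      · show _ ∈ X.L₁
        rw [hX.top, mem_rt, mul_inv_cancel_right]
        exact hm _ h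
      · rw [hnb _ h, hsum _ h, inv_mul_cancel_right]
  · show (X1.post a n hinj).R = lev a L M
    rw [TW.post_R, hX1, TW.pre_R, hX.reg, lev_eq, lev_eq]
    have t0 : ∑ x ∈ X.L₀, ∑ i ∈ range m, ({x * B.q a ^ i} : Multiset Q) =
        ∑ y ∈ L, ∑ i ∈ range m, {y * B.q a ^ s y * B.q a ^ i} := by
      symm
      refine Finset.sum_nbij (fun y => y * B.q a ^ s y) ?_ ?_ ?_ ?_
      · intro y hy; exact hm y hy
      · intro y hy y' hy' h; exact hn y (Finset.mem_coe.1 hy) y' (Finset.mem_coe.1 hy') h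
      · intro x hx
        obtain ⟨y, h1, h2⟩ := hs x (Finset.mem_coe.1 hx)
        exact ⟨y, Finset.mem_coe.2 h1, h2⟩
      · intro y _; rfl
    have t1 : ∑ v ∈ X.L₁, ∑ i ∈ range (n v), ({v * B.q a ^ i} : Multiset Q) =
        ∑ y ∈ L, ∑ i ∈ range (M - m - s y), {y * B.q a ^ s y * B.q a ^ m * B.q a ^ i} := by
      symm
      refine Finset.sum_nbij (fun y => y * B.q a ^ s y * B.q a ^ m) ?_ ?_ ?_ ?_
      · intro y hy
        rw [hX.top, mem_rt, mul_inv_cancel_right]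
        exact hm y hy
      · intro y hy y' hy' h
        exact hn y (Finset.mem_coe.1 hy) y' (Finset.mem_coe.1 hy') (mul_right_cancel h)
      · intro x hx
        obtain ⟨y, h1, h2⟩ := htop x (Finset.mem_coe.1 hx)
        exact ⟨y, Finset.mem_coe.2 h1, h2⟩
      · intro y hy
        rw [hnb y hy]
    rw [t0]
    show _ + ∑ v ∈ X.L₁, ∑ i ∈ range (n v), ({v * B.q a ^ i} : Multiset Q) = _
    rw [t1, ← Finset.sum_add_distrib, ← Finset.sum_add_distrib]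
    refine Finset.sum_congr rfl fun y hy => ?_
    have h0 := hM y hy
    have h1 : M = s y + m + (M - m - s y) := by omega
    conv_rhs => rw [h1]
    rw [Finset.sum_range_add, Finset.sum_range_add]
    congr 1
    · congr 1
      refine Finset.sum_congr rfl fun i _ => ?_
      rw [pow_add, mul_assoc]
    · refine Finset.sum_congr rfl fun i _ => ?_
      rw [pow_add, pow_add, mul_assoc, mul_assoc, mul_assoc]
  · show X1.w₀ * B.q a ^ n X1.w₀ = _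
    rw [hw₀, hnb y₀ hy₀, hsum y₀ hy₀]
  · show X1.w₁ * B.q a ^ n X1.w₁ = _
    rw [hw₁, hnb y₁ hy₁, hsum y₁ hy₁]
  · rfl
  · show reps (B.inv a) (n X1.w₀) ++ (X1.cap ++ reps a (n X1.w₁)) = _
    rw [hw₀, hw₁, hnb y₀ hy₀, hnb y₁ hy₁]
    rfl
  · intro y hy h0 h1 y' hy' h
    have h2 : X1.f y = y' * B.q a ^ s y' * B.q a ^ m := h
    refine ⟨?_, ?_⟩
    · show X1.f y * B.q a ^ n (X1.f y) = _
      rw [h2, hnb y' hy', hsum y' hy']
    · show X1.path y ++ reps a (n (X1.f y)) = _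
      rw [h2, hnb y' hy']
      rfl

end Pool.Agent.Lib.MP_688fd0_co.SQ2
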