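import Pool.Agent.Lib.MP_688fd0_co.SQ2.H98.Gadg
import Pool.Agent.Lib.MP_688fd0_co.SQ2.V.Loc

/-!
From `GadF` to the base gadgets of the big puzzle (`BGad`, `GOK`).
-/

set_option autoImplicit false

namespace Pool.Agent.Lib.MP_688fd0_co.SQ2

open Pool.Agent.Lib.MP_688fd0_co.OSF

section sym

variable {Q : Type} [Group Q] {D : Subgroup Q} {A : Q} {F : Finset Q} {e : ℕ}

theorem FrD.cenz (h : FrD D A F e) (m : ℤ) (x : Q) : x * A ^ ((e : ℤ) * m) = A ^ ((e : ℤ) * m) * x := by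
  have h1 : Commute x (A ^ e) := h.cen x
  have h2 := (h1.zpow_right m).eq
  rwa [← zpow_natCast, ← zpow_mul] at h2

/-- Every element of `D A ^ n` acts as a symmetry. -/
theorem FrD.exists_sy (h : FrD D A F e) (w : Q) (n : ℤ) (hw : w * (A ^ n)⁻¹ ∈ D) :
    ∃ g : Sy h.toFrt, lv g = (n : ZMod e) ∧ ∀ s : F, w * (s : Q) = ((g • s : F) : Q) * A ^ n := by
  have he : (0 : ℤ) < e := by exact_mod_cast h.he
  have ht : (((n % e).toNat : ℕ) : ℤ) = n % e := Int.toNat_of_nonneg (Int.emod_nonneg _ he.ne')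
  have hn : n = ((n % e).toNat : ℕ) + e * (n / e) := by
    rw [ht]; exact (Int.emod_add_mul_ediv n e).symm
  refine ⟨h.sy hw (n % e).toNat, ?_, fun s => ?_⟩
  · rw [h.sy_lv]
    conv_rhs => rw [hn]
    push_cast
    rw [ZMod.natCast_self, zero_mul, add_zero]
  · rw [h.sy_smul]
    have e1 : A ^ n = A ^ (n % e).toNat * A ^ ((e : ℤ) * (n / e)) := by
      rw [← zpow_natCast, ← zpow_add, ← hn]
    have e2 := h.cenz (n / e) (s : Q)
    rw [e1]
    have e3 : w * (A ^ (n % e).toNat * A ^ ((e : ℤ) * (n / e)))⁻¹ * A ^ (n % e).toNat * (s : Q) *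
        (A ^ (n % e).toNat)⁻¹ * (A ^ (n % e).toNat * A ^ ((e : ℤ) * (n / e))) =
        w * (A ^ ((e : ℤ) * (n / e)))⁻¹ * ((s : Q) * A ^ ((e : ℤ) * (n / e))) := by group
    rw [e3, e2]
    group

/-- The pairs (element, level) which act, after conjugation by `v`, like elements of `Γs`. -/
def lsub (h : FrD D A F e) (v : Q) (Γs : Subgroup (Sy h.toFrt)) : Subgroup (Q × Multiplicative ℤ) where
  carrier := {w | ∃ g ∈ Γs, lv g = ((Multiplicative.toAdd w.2 : ℤ) : ZMod e) ∧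
    ∀ s : F, v * w.1 * v⁻¹ * (s : Q) = ((g • s : F) : Q) * A ^ (Multiplicative.toAdd w.2)}
  one_mem' := ⟨1, Γs.one_mem, by
    show (0 : ZMod e) = ((0 : ℤ) : ZMod e)
    rw [Int.cast_zero], fun s => by
    show v * 1 * v⁻¹ * (s : Q) = (s : Q) * A ^ (0 : ℤ)
    group⟩
  mul_mem' := by
    rintro ⟨w, n⟩ ⟨w', n'⟩ ⟨g, h1, h2, h3⟩ ⟨g', h1', h2', h3'⟩
    refine ⟨g * g', Γs.mul_mem h1 h1', ?_, fun s => ?_⟩
    · rw [lv_mul, h2, h2']
      exact (Int.cast_add _ _).symm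
    · have e1 := h3' s
      have e2 := h3 (g' • s)
      show v * (w * w') * v⁻¹ * (s : Q) = (((g * g') • s : F) : Q) * A ^ (Multiplicative.toAdd n + Multiplicative.toAdd n')
      have e3 : v * (w * w') * v⁻¹ * (s : Q) = v * w * v⁻¹ * (v * w' * v⁻¹ * (s : Q)) := by group
      have e4 : v * w' * v⁻¹ * (s : Q) = ((g' • s : F) : Q) * A ^ (Multiplicative.toAdd n') := e1
      have e5 : v * w * v⁻¹ * ((g' • s : F) : Q) = ((g • g' • s : F) : Q) * A ^ (Multiplicative.toAdd n) := e2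
      rw [mul_smul, e3, e4, ← mul_assoc, e5, mul_assoc, ← zpow_add]
  inv_mem' := by
    rintro ⟨w, n⟩ ⟨g, h1, h2, h3⟩
    refine ⟨g⁻¹, Γs.inv_mem h1, ?_, fun s => ?_⟩
    · have h4 : lv (g⁻¹ * g) = lv g⁻¹ + lv g := lv_mul _ _
      rw [inv_mul_cancel, lv_one] at h4
      show lv g⁻¹ = (((-(Multiplicative.toAdd n)) : ℤ) : ZMod e)
      rw [Int.cast_neg]
      have h5 : lv g = ((Multiplicative.toAdd n : ℤ) : ZMod e) := h2
      rw [← h5]
      exact eq_neg_of_add_eq_zero_left h4.symm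
    · have e1 := h3 (g⁻¹ • s)
      rw [smul_inv_smul] at e1
      show v * w⁻¹ * v⁻¹ * (s : Q) = ((g⁻¹ • s : F) : Q) * A ^ (-(Multiplicative.toAdd n))
      have e2 : v * w * v⁻¹ * ((g⁻¹ • s : F) : Q) = (s : Q) * A ^ (Multiplicative.toAdd n) := e1
      have e3 : ((g⁻¹ • s : F) : Q) = v * w⁻¹ * v⁻¹ * ((s : Q) * A ^ (Multiplicative.toAdd n)) := by
        rw [← e2]; group
      rw [e3]; group

theorem lsub_iff (h : FrD D A F e) (v : Q) (Γs : Subgroup (Sy h.toFrt)) (w : Q) (n : ℤ) :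
    inG (lsub h v Γs) w n ↔ ∃ g ∈ Γs, lv g = (n : ZMod e) ∧
      ∀ s : F, v * w * v⁻¹ * (s : Q) = ((g • s : F) : Q) * A ^ n := Iff.rfl

theorem lg_le {Γ : Subgroup (Q × Multiplicative ℤ)} {x y : Q} {m n : ℤ} (hx : inG Γ x m) (hy : inG Γ y n) :
    lg x m y n ≤ Γ := by
  unfold lg
  rw [Subgroup.closure_le]
  rintro w (rfl | rfl)
  · exact hx
  · exact hy

/-- Conjugates of `A`. -/
theorem lsub_cj (h : FrD D A F e) {v w c : Q} {Γs : Subgroup (Sy h.toFrt)} (hw : h.cj w ∈ Γs)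
    (hc : v * c * v⁻¹ = w * A * w⁻¹) : inG (lsub h v Γs) c 1 := by
  rw [lsub_iff]
  refine ⟨_, hw, ?_, fun s => ?_⟩
  · rw [h.cj_lv, Int.cast_one]
  · rw [h.cj_smul, hc, zpow_one]; group

end sym

section bridge

variable {Q : Type} [Group Q] [DecidableEq Q] {B : Lb.{0, 0} Q} {a : B.L} {D : Subgroup Q} {F : Finset Q} {e : ℕ}

omit [DecidableEq Q] in
theorem vol_reps {R : Type} [CommRing R] (V : Vd B R) (ha : V.n a = 0) (x : Q) (n : ℕ) :
    V.vol x (reps a n) = 0 := vol_zero V a ha x n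

omit [DecidableEq Q] in
theorem vol_reps_inv {R : Type} [CommRing R] (V : Vd B R) (ha : V.n a = 0) (x : Q) (n : ℕ) :
    V.vol x (reps (B.inv a) n) = 0 := vol_zero V (B.inv a) (by rw [V.n_inv, ha, mul_zero, neg_zero]) x n

/-- The bridge. -/
theorem GadF.gok (h : FrD D (B.q a) F e) {b : B.L} {Γ : Subgroup (Q × Multiplicative ℤ)} {s₀ s₁ v v' : Q}
    {T : TW B} {M p p' q q' : ℕ} (G : GadF a D F b Γ s₀ s₁ v v' T M p p' q q') (h₀ : s₀ ∈ F) (h₁ : s₁ ∈ F)
    (Γs : Subgroup (Sy h.toFrt)) (hΓ : Γ ≤ lsub h v Γs) :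
    ∃ G' : BGad h.toFrt, G'.x = ⟨s₀, h₀⟩ ∧ G'.y = ⟨s₁, h₁⟩ ∧ G'.H = M ∧ G'.X = T ∧ GOK h G' b p p' Γs := by
  classical
  obtain ⟨δ, hδ, hlv, hact⟩ := (lsub_iff h v Γs _ _).1 (hΓ G.gam)
  set x : F := ⟨s₀, h₀⟩ with hx
  set y : F := ⟨s₁, h₁⟩ with hy
  have hpq := G.pq
  have hpq' := G.pq'
  have hu₀ : T.u₀ = (x : Q) := G.u₀
  have hu₁ : T.u₁ = (y : Q) := G.u₁
  have hne : x ≠ y := by
    intro he
    apply T.hu
    rw [hu₀, hu₁, he]
  rw [zpow_natCast] at hact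
  have hact' : ∀ s : F, v' * v⁻¹ * (s : Q) = ((δ • s : F) : Q) * B.q a ^ (M - p - q) := by
    intro s
    rw [← hact s]; group
  have e₀ : v = (x : Q) * B.q a ^ p := G.e₀
  have e₁ : v * B.q b = (y : Q) * B.q a ^ p' := G.e₁
  have w₀ : T.w₀ = ((δ • x : F) : Q) * B.q a ^ M := by
    have h1 : T.w₀ = v' * v⁻¹ * (x : Q) * B.q a ^ (p + q) := by
      rw [G.w₀, pow_add, ← mul_assoc, mul_assoc _ (x : Q), ← e₀]; group
    rw [h1, hact', mul_assoc, ← pow_add]
    congr 2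
    omega
  have w₁ : T.w₁ = ((δ • y : F) : Q) * B.q a ^ M := by
    have h1 : T.w₁ = v' * v⁻¹ * (y : Q) * B.q a ^ (p' + q') := by
      rw [G.w₁, pow_add, ← mul_assoc, mul_assoc _ (y : Q), ← e₁]; group
    rw [h1, hact', mul_assoc, ← pow_add, hpq']
    congr 2
    omega
  have hL₀ : T.L₀ = F := G.L₀
  have hL₁ : T.L₁ = rt F (B.q a ^ M) := by rw [G.rect.top, hL₀]
  have hmem : ∀ s : F, s ≠ x → s ≠ y → T.f s * (B.q a ^ M)⁻¹ ∈ F := by
    intro s hsx hsy
    have h1 := (T.f_mem s (by rw [hL₀]; exact s.2) (fun he => hsx (Subtype.ext (he.trans hu₀)))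
      (fun he => hsy (Subtype.ext (he.trans hu₁)))).1
    rwa [hL₁, mem_rt] at h1
  set φ : F → F := fun s => if hsx : s = x then δ • x else if hsy : s = y then δ • y else
    ⟨T.f s * (B.q a ^ M)⁻¹, hmem s hsx hsy⟩ with hφ
  have φx : φ x = δ • x := dif_pos rfl
  have φy : φ y = δ • y := by
    show (if hsx : y = x then δ • x else _) = _
    rw [dif_neg hne.symm, dif_pos rfl]
  have φs : ∀ s : F, s ≠ x → s ≠ y → T.f s = (φ s : Q) * B.q a ^ M := by
    intro s hsx hsy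
    have : φ s = ⟨T.f s * (B.q a ^ M)⁻¹, hmem s hsx hsy⟩ := by
      show (if hsx : s = x then δ • x else _) = _
      rw [dif_neg hsx, dif_neg hsy]
    rw [this, inv_mul_cancel_right]
  have hne2 : ∀ s : F, s ≠ x → s ≠ y → φ s ≠ δ • x ∧ φ s ≠ δ • y := by
    intro s hsx hsy
    have h1 := (T.f_mem s (by rw [hL₀]; exact s.2) (fun he => hsx (Subtype.ext (he.trans hu₀)))
      (fun he => hsy (Subtype.ext (he.trans hu₁)))).2
    rw [φs s hsx hsy, w₀, w₁] at h1
    exact ⟨fun he => h1.1 (by rw [he]), fun he => h1.2 (by rw [he])⟩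
  have hinj : Function.Injective φ := by
    intro s s' he
    by_cases h1 : s = x
    · by_cases h2 : s' = x
      · rw [h1, h2]
      · by_cases h3 : s' = y
        · rw [h1, h3, φx, φy] at he
          exact absurd (smul_left_cancel _ he) hne
        · rw [h1, φx] at he
          exact absurd he.symm (hne2 s' h2 h3).1
    · by_cases h1' : s = y
      · by_cases h2 : s' = x
        · rw [h1', h2, φx, φy] at he
          exact absurd (smul_left_cancel _ he).symm hne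
        · by_cases h3 : s' = y
          · rw [h1', h3]
          · rw [h1', φy] at he
            exact absurd he.symm (hne2 s' h2 h3).2
      · by_cases h2 : s' = x
        · rw [h2, φx] at he
          exact absurd he (hne2 s h1 h1').1
        · by_cases h3 : s' = y
          · rw [h3, φy] at he
            exact absurd he (hne2 s h1 h1').2
          · have h4 : T.f s = T.f s' := by rw [φs s h1 h1', φs s' h2 h3, he]
            exact Subtype.ext (T.f_inj s (by rw [hL₀]; exact s.2) (fun he => h1 (Subtype.ext (he.trans hu₀)))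
              (fun he => h1' (Subtype.ext (he.trans hu₁))) s' (by rw [hL₀]; exact s'.2)
              (fun he => h2 (Subtype.ext (he.trans hu₀))) (fun he => h3 (Subtype.ext (he.trans hu₁))) h4)
  -- the component
  have hcmp : ∀ s : F, Cmp D Γ s₀ s₁ v (B.q b) p p' s → ∃ g ∈ Γs, g • x = s ∨ g • y = s := by
    rintro s (⟨_, h2⟩ | ⟨_, h2⟩)
    · obtain ⟨g, g1, _, g3⟩ := (lsub_iff h v Γs _ _).1 (hΓ h2)
      refine ⟨g, g1, Or.inl (Subtype.ext ?_)⟩
      have h3 := g3 x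
      have h4 : v * (v⁻¹ * (s : Q)) * v⁻¹ * (x : Q) = (s : Q) * B.q a ^ (-(p : ℤ)) := by
        rw [zpow_neg, zpow_natCast]
        have : v⁻¹ * (x : Q) = (B.q a ^ p)⁻¹ := by rw [e₀]; group
        rw [mul_inv_cancel_left, mul_assoc, this]
      rw [h4] at h3
      exact (mul_right_cancel h3).symm
    · obtain ⟨g, g1, _, g3⟩ := (lsub_iff h v Γs _ _).1 (hΓ h2)
      refine ⟨g, g1, Or.inr (Subtype.ext ?_)⟩
      have h3 := g3 y
      have h4 : v * (v⁻¹ * (s : Q) * (B.q b)⁻¹) * v⁻¹ * (y : Q) = (s : Q) * B.q a ^ (-(p' : ℤ)) := by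
        rw [zpow_neg, zpow_natCast]
        have h5 : (y : Q) = v * B.q b * (B.q a ^ p')⁻¹ := by rw [e₁, mul_inv_cancel_right]
        rw [h5]; group
      rw [h4] at h3
      exact (mul_right_cancel h3).symm
  have hout : ∀ s : F, (∀ g ∈ Γs, g • x ≠ s ∧ g • y ≠ s) → s ≠ x ∧ s ≠ y ∧
      T.f s = (s : Q) * B.q a ^ M ∧ T.path s = reps a M := by
    intro s hs
    have h1 := hs 1 Γs.one_mem
    rw [one_smul, one_smul] at h1
    have h2 : ¬ Cmp D Γ s₀ s₁ v (B.q b) p p' s := by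
      intro hc
      obtain ⟨g, g1, g2⟩ := hcmp s hc
      rcases g2 with g2 | g2
      · exact (hs g g1).1 g2
      · exact (hs g g1).2 g2
    refine ⟨h1.1.symm, h1.2.symm, G.out s s.2 (fun he => h1.1.symm (Subtype.ext he))
      (fun he => h1.2.symm (Subtype.ext he)) h2⟩
  let G' : BGad h.toFrt :=
    { x := x, y := y, ne := hne, δ := δ
      T := Equiv.ofBijective φ (Finite.injective_iff_bijective.1 hinj)
      Tx := φx, Ty := φy, H := M, X := T, L₀ := hL₀, L₁ := hL₁, u₀ := hu₀, u₁ := hu₁, w₀ := w₀, w₁ := w₁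
      f := φs
      reg := by rw [G.rect.reg, hL₀]; rfl }
  have hcup : ∀ (R : Type) [CommRing R] (V : Vd B R), V.n a = 0 →
      V.vol (x : Q) T.cup = V.chi ((x : Q) * B.q a ^ p) * V.n b := by
    intro R _ V hV
    rw [G.cup, vol_append, vol_reps V hV, zero_add, fin_reps]
    show V.chi ((x : Q) * B.q a ^ p) * V.n b + V.vol _ (reps (B.inv a) p') = _
    rw [vol_reps_inv V hV, add_zero]
  refine ⟨G', rfl, rfl, rfl, rfl, ⟨?_, hδ, ?_, hcup, ?_, ?_⟩⟩
  · show (x : Q) * B.q a ^ p * B.q b = (y : Q) * B.q a ^ p'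
    rw [← e₀, e₁]
  · intro s hs
    obtain ⟨h1, h2, h3, _⟩ := hout s hs
    have h4 := φs s h1 h2
    rw [h3] at h4
    exact Subtype.ext (mul_right_cancel h4).symm
  · intro R _ V hV hal
    have : NeZero e := ⟨h.he.ne'⟩
    have h1 : V.vol T.w₀ T.cap = V.chi v' * V.n b := by
      rw [G.cap, vol_append, vol_reps_inv V hV, zero_add]
      have h2 : B.fin T.w₀ (reps (B.inv a) q) = v' := by rw [G.w₀, fin_reps_inv]
      rw [h2]
      show V.chi v' * V.n b + V.vol _ (reps a q') = _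
      rw [vol_reps V hV, add_zero]
    have h3 : (((M - p - q : ℕ) : ℕ) : ZMod e) = lv δ := by rw [hlv, Int.cast_natCast]
    have h4 : V.chi (uu δ (M - p - q)) = Xc V δ := Xc_eq V hal x δ _ h3
    have h5 : uu δ (M - p - q) = v' * v⁻¹ := by
      rw [uu_eq δ _ h3 x, ← hact' x]; group
    show V.vol T.w₀ T.cap = Xc V δ * V.vol (x : Q) T.cup
    rw [h1, hcup R V hV, ← h4, h5, ← mul_assoc, ← map_mul, ← e₀, inv_mul_cancel_right]
  · intro R _ V hV s hs
    obtain ⟨_, _, _, h4⟩ := hout s hs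
    show V.vol (s : Q) (T.path s) = 0
    rw [h4, vol_reps V hV]

end bridge

end Pool.Agent.Lib.MP_688fd0_co.SQ2
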