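import Pool.Agent.Lib.MP_688fd0_co.SQ2.TW

/-!
Collars: straight pieces of different lengths above or below a window.
-/

set_option autoImplicit false

namespace Pool.Agent.Lib.MP_688fd0_co.SQ2

open Pool.Agent.Lib.MP_688fd0_co.OSF

universe u v w

variable {Q : Type u} [Group Q] {B : Lb.{u, v} Q}

/-- `n` times the label `a`. -/
def reps (a : B.L) (n : ℕ) : List B.L := List.replicate n a

theorem reps_succ (a : B.L) (n : ℕ) : reps a (n + 1) = a :: reps a n := rfl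

theorem fin_reps (a : B.L) (n : ℕ) (x : Q) : B.fin x (reps a n) = x * B.q a ^ n := by
  induction n generalizing x with
  | zero => rw [pow_zero, mul_one]; rfl
  | succ n ih =>
    rw [reps_succ]
    show B.fin (x * B.q a) (reps a n) = _
    rw [ih, pow_succ', mul_assoc]

theorem rev_reps (a : B.L) (n : ℕ) : B.rev (reps a n) = reps (B.inv a) n := by
  unfold reps Lb.rev
  rw [List.map_replicate, List.reverse_replicate]

theorem fin_reps_inv (a : B.L) (n : ℕ) (x : Q) : B.fin (x * B.q a ^ n) (reps (B.inv a) n) = x := by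
  rw [← rev_reps, ← fin_reps, fin_rev]

/-- The multiset `x, xa, .., xa ^ (n - 1)`. -/
theorem src_reps (a : B.L) (n : ℕ) (x : Q) :
    (src B x (reps a n) : Multiset Q) = ∑ i ∈ Finset.range n, {x * B.q a ^ i} := by
  induction n generalizing x with
  | zero => rfl
  | succ n ih =>
    rw [reps_succ]
    show ((x :: src B (x * B.q a) (reps a n) : List Q) : Multiset Q) = _
    rw [← Multiset.cons_coe, ih, Finset.sum_range_succ', pow_zero, mul_one, ← Multiset.singleton_add,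
      add_comm]
    congr 1
    refine Finset.sum_congr rfl fun i _ => ?_
    rw [pow_succ', mul_assoc]

/-- The vertices of the reversed piece without the start. -/
theorem src_reps_rev (a : B.L) (n : ℕ) (x : Q) :
    (src B (x * B.q a ^ n) (reps (B.inv a) n) : Multiset Q) + {x} =
      {x * B.q a ^ n} + ∑ i ∈ Finset.range n, {x * B.q a ^ i} := by
  have h1 := verts_rev (B := B) x (reps a n)
  rw [verts_eq, fin_rev, fin_reps, rev_reps] at h1
  have h2 := congrArg (fun l : List Q => (l : Multiset Q)) h1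
  simp only [Multiset.coe_reverse] at h2
  rw [verts_eq, fin_reps, ← Multiset.coe_add, ← Multiset.coe_add, src_reps a n x] at h2
  rw [add_comm ({x * B.q a ^ n} : Multiset Q)]
  exact h2

namespace TW

variable [DecidableEq Q]

/-- A straight piece of length `n y` above each vertex `y` of the top frontier. -/
def post (X : TW B) (a : B.L) (n : Q → ℕ)
    (hn : ∀ y ∈ X.L₁, ∀ y' ∈ X.L₁, y * B.q a ^ n y = y' * B.q a ^ n y' → y = y') : TW B where
  L₀ := X.L₀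
  L₁ := X.L₁.image fun y => y * B.q a ^ n y
  u₀ := X.u₀
  u₁ := X.u₁
  w₀ := X.w₀ * B.q a ^ n X.w₀
  w₁ := X.w₁ * B.q a ^ n X.w₁
  cup := X.cup
  cap := reps (B.inv a) (n X.w₀) ++ (X.cap ++ reps a (n X.w₁))
  f := fun x => X.f x * B.q a ^ n (X.f x)
  path := fun x => X.path x ++ reps a (n (X.f x))
  hu₀ := X.hu₀
  hu₁ := X.hu₁
  hu := X.hu
  hw₀ := Finset.mem_image_of_mem _ X.hw₀
  hw₁ := Finset.mem_image_of_mem _ X.hw₁
  hw := fun h => X.hw (hn _ X.hw₀ _ X.hw₁ h)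
  cup_fin := X.cup_fin
  cap_fin := by
    rw [fin_append, fin_append, fin_reps_inv, X.cap_fin, fin_reps]
  path_fin := fun x h h0 h1 => by
    rw [fin_append, X.path_fin x h h0 h1, fin_reps]
  f_mem := fun x h h0 h1 => by
    obtain ⟨a1, a2, a3⟩ := X.f_mem x h h0 h1
    exact ⟨Finset.mem_image_of_mem _ a1, fun h => a2 (hn _ a1 _ X.hw₀ h), fun h => a3 (hn _ a1 _ X.hw₁ h)⟩
  f_inj := fun x h h0 h1 y h' h0' h1' he => X.f_inj x h h0 h1 y h' h0' h1'
    (hn _ (X.f_mem x h h0 h1).1 _ (X.f_mem y h' h0' h1').1 he)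
  f_surj := fun z hz h0 h1 => by
    obtain ⟨y, hy, rfl⟩ := Finset.mem_image.1 hz
    obtain ⟨x, a1, a2, a3, a4⟩ := X.f_surj y hy (fun h => h0 (by rw [h])) (fun h => h1 (by rw [h]))
    exact ⟨x, a1, a2, a3, by rw [a4]⟩

theorem post_R (X : TW B) (a : B.L) (n : Q → ℕ)
    (hn : ∀ y ∈ X.L₁, ∀ y' ∈ X.L₁, y * B.q a ^ n y = y' * B.q a ^ n y' → y = y') :
    (X.post a n hn).R = X.R + ∑ y ∈ X.L₁, ∑ i ∈ Finset.range (n y), {y * B.q a ^ i} := by
  have h1 : ∑ x ∈ X.tok₀, (src B x (X.path x ++ reps a (n (X.f x))) : Multiset Q) =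
      ∑ x ∈ X.tok₀, (src B x (X.path x) : Multiset Q) +
      ∑ y ∈ X.tok₁, ∑ i ∈ Finset.range (n y), {y * B.q a ^ i} := by
    rw [← X.sum_f (fun y => ∑ i ∈ Finset.range (n y), ({y * B.q a ^ i} : Multiset Q)),
      ← Finset.sum_add_distrib]
    refine Finset.sum_congr rfl fun x hx => ?_
    rw [mem_tok₀] at hx
    rw [src_append, X.path_fin x hx.1 hx.2.1 hx.2.2, ← src_reps]
    rfl
  have h2 : ∑ y ∈ X.L₁, ∑ i ∈ Finset.range (n y), ({y * B.q a ^ i} : Multiset Q) =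
      ∑ y ∈ X.tok₁, ∑ i ∈ Finset.range (n y), {y * B.q a ^ i} +
      ∑ i ∈ Finset.range (n X.w₀), {X.w₀ * B.q a ^ i} +
      ∑ i ∈ Finset.range (n X.w₁), {X.w₁ * B.q a ^ i} := by
    show (X.L₁.val.map fun y => ∑ i ∈ Finset.range (n y), ({y * B.q a ^ i} : Multiset Q)).sum = _
    rw [X.L₁_val, Multiset.map_add, Multiset.map_add, Multiset.sum_add, Multiset.sum_add]
    simp only [Multiset.map_singleton, Multiset.sum_singleton]
    rfl
  have h3 : ((src B (X.w₀ * B.q a ^ n X.w₀) (reps (B.inv a) (n X.w₀) ++ (X.cap ++ reps a (n X.w₁)))).tail :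
      Multiset Q) = ((src B X.w₀ X.cap).tail : Multiset Q) +
      ∑ i ∈ Finset.range (n X.w₀), {X.w₀ * B.q a ^ i} +
      ∑ i ∈ Finset.range (n X.w₁), {X.w₁ * B.q a ^ i} := by
    have hne : reps (B.inv a) (n X.w₀) ++ (X.cap ++ reps a (n X.w₁)) ≠ [] := by
      intro h
      have := (List.append_eq_nil_iff.1 (List.append_eq_nil_iff.1 h).2).1
      exact X.cap_ne this
    have e1 := congrArg (fun l : List Q => (l : Multiset Q)) (src_ne_nil (B := B) (X.w₀ * B.q a ^ n X.w₀) hne)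
    have e2 := congrArg (fun l : List Q => (l : Multiset Q)) (src_ne_nil (B := B) X.w₀ X.cap_ne)
    simp only [← Multiset.cons_coe, ← Multiset.singleton_add] at e1 e2
    have e3 := src_reps_rev (B := B) a (n X.w₀) X.w₀
    have e4 : ({X.w₀ * B.q a ^ n X.w₀} : Multiset Q) + ((src B (X.w₀ * B.q a ^ n X.w₀)
        (reps (B.inv a) (n X.w₀) ++ (X.cap ++ reps a (n X.w₁)))).tail : Multiset Q) =
        {X.w₀ * B.q a ^ n X.w₀} + (((src B X.w₀ X.cap).tail : Multiset Q) +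
      ∑ i ∈ Finset.range (n X.w₀), {X.w₀ * B.q a ^ i} +
      ∑ i ∈ Finset.range (n X.w₁), {X.w₁ * B.q a ^ i}) := by
      rw [← e1, src_append, src_append, fin_reps_inv, X.cap_fin, ← Multiset.coe_add, ← Multiset.coe_add,
        src_reps a (n X.w₁) X.w₁, e2]
      have e5 : ((src B (X.w₀ * B.q a ^ n X.w₀) (reps (B.inv a) (n X.w₀)) : List Q) : Multiset Q) + {X.w₀} +
          (((src B X.w₀ X.cap).tail : List Q) : Multiset Q) +
          ∑ i ∈ Finset.range (n X.w₁), {X.w₁ * B.q a ^ i} = {X.w₀ * B.q a ^ n X.w₀} +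
          ∑ i ∈ Finset.range (n X.w₀), {X.w₀ * B.q a ^ i} +
          (((src B X.w₀ X.cap).tail : List Q) : Multiset Q) +
          ∑ i ∈ Finset.range (n X.w₁), {X.w₁ * B.q a ^ i} := by rw [e3]
      rw [show ((src B (X.w₀ * B.q a ^ n X.w₀) (reps (B.inv a) (n X.w₀)) : List Q) : Multiset Q) +
        (({X.w₀} + (((src B X.w₀ X.cap).tail : List Q) : Multiset Q)) +
        ∑ i ∈ Finset.range (n X.w₁), {X.w₁ * B.q a ^ i}) =
        ((src B (X.w₀ * B.q a ^ n X.w₀) (reps (B.inv a) (n X.w₀)) : List Q) : Multiset Q) + {X.w₀} +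
        (((src B X.w₀ X.cap).tail : List Q) : Multiset Q) +
        ∑ i ∈ Finset.range (n X.w₁), {X.w₁ * B.q a ^ i} by abel, e5]
      abel
    exact add_left_cancel e4
  have e0 : (X.post a n hn).R = ∑ x ∈ X.tok₀, (src B x (X.path x ++ reps a (n (X.f x))) : Multiset Q) +
      (B.verts X.u₀ X.cup : Multiset Q) +
      ((src B (X.w₀ * B.q a ^ n X.w₀) (reps (B.inv a) (n X.w₀) ++ (X.cap ++ reps a (n X.w₁)))).tail :
        Multiset Q) := rfl
  rw [e0, h1, h2, h3]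
  unfold R
  abel

/-- A straight piece of length `n y` below the window, for each vertex `y` of the new bottom frontier `L`. -/
def pre (X : TW B) (a : B.L) (L : Finset Q) (n : Q → ℕ) (v₀ v₁ : Q) (h₀ : v₀ ∈ L) (h₁ : v₁ ∈ L)
    (e₀ : v₀ * B.q a ^ n v₀ = X.u₀) (e₁ : v₁ * B.q a ^ n v₁ = X.u₁)
    (hm : ∀ y ∈ L, y * B.q a ^ n y ∈ X.L₀)
    (hn : ∀ y ∈ L, ∀ y' ∈ L, y * B.q a ^ n y = y' * B.q a ^ n y' → y = y')
    (hs : ∀ x ∈ X.L₀, ∃ y ∈ L, y * B.q a ^ n y = x) : TW B where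
  L₀ := L
  L₁ := X.L₁
  u₀ := v₀
  u₁ := v₁
  w₀ := X.w₀
  w₁ := X.w₁
  cup := reps a (n v₀) ++ (X.cup ++ reps (B.inv a) (n v₁))
  cap := X.cap
  f := fun y => X.f (y * B.q a ^ n y)
  path := fun y => reps a (n y) ++ X.path (y * B.q a ^ n y)
  hu₀ := h₀
  hu₁ := h₁
  hu := fun h => X.hu (by rw [← e₀, ← e₁, h])
  hw₀ := X.hw₀
  hw₁ := X.hw₁
  hw := X.hw
  cup_fin := by
    rw [fin_append, fin_append, fin_reps a (n v₀) v₀, e₀, X.cup_fin, ← e₁, fin_reps_inv]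
  cap_fin := X.cap_fin
  path_fin := fun y h h0 h1 => by
    rw [fin_append, fin_reps]
    exact X.path_fin _ (hm y h) (fun h2 => h0 (hn _ h _ h₀ (h2.trans e₀.symm)))
      (fun h2 => h1 (hn _ h _ h₁ (h2.trans e₁.symm)))
  f_mem := fun y h h0 h1 => X.f_mem _ (hm y h) (fun h2 => h0 (hn _ h _ h₀ (h2.trans e₀.symm)))
      (fun h2 => h1 (hn _ h _ h₁ (h2.trans e₁.symm)))
  f_inj := fun y h h0 h1 y' h' h0' h1' he => hn _ h _ h' (X.f_inj _ (hm y h)
      (fun h2 => h0 (hn _ h _ h₀ (h2.trans e₀.symm)))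
      (fun h2 => h1 (hn _ h _ h₁ (h2.trans e₁.symm))) _ (hm y' h')
      (fun h2 => h0' (hn _ h' _ h₀ (h2.trans e₀.symm)))
      (fun h2 => h1' (hn _ h' _ h₁ (h2.trans e₁.symm))) he)
  f_surj := fun z hz h0 h1 => by
    obtain ⟨x, a1, a2, a3, a4⟩ := X.f_surj z hz h0 h1
    obtain ⟨y, b1, b2⟩ := hs x a1
    refine ⟨y, b1, fun h => a2 ?_, fun h => a3 ?_, by rw [b2, a4]⟩
    · rw [← b2, h, e₀]
    · rw [← b2, h, e₁]

theorem pre_R (X : TW B) (a : B.L) (L : Finset Q) (n : Q → ℕ) (v₀ v₁ : Q) (h₀ : v₀ ∈ L) (h₁ : v₁ ∈ L)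
    (e₀ : v₀ * B.q a ^ n v₀ = X.u₀) (e₁ : v₁ * B.q a ^ n v₁ = X.u₁)
    (hm : ∀ y ∈ L, y * B.q a ^ n y ∈ X.L₀)
    (hn : ∀ y ∈ L, ∀ y' ∈ L, y * B.q a ^ n y = y' * B.q a ^ n y' → y = y')
    (hs : ∀ x ∈ X.L₀, ∃ y ∈ L, y * B.q a ^ n y = x) :
    (X.pre a L n v₀ v₁ h₀ h₁ e₀ e₁ hm hn hs).R =
      ∑ y ∈ L, ∑ i ∈ Finset.range (n y), {y * B.q a ^ i} + X.R := by
  set Y := X.pre a L n v₀ v₁ h₀ h₁ e₀ e₁ hm hn hs with hY
  have hLY : Y.L₀ = L := rfl
  have t0 : ∑ x ∈ Y.tok₀, (src B (x * B.q a ^ n x) (X.path (x * B.q a ^ n x)) : Multiset Q) =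
      ∑ x ∈ X.tok₀, (src B x (X.path x) : Multiset Q) := by
    refine Finset.sum_nbij (fun x => x * B.q a ^ n x) ?_ ?_ ?_ ?_
    · intro y hy
      rw [mem_tok₀] at hy ⊢
      exact ⟨hm y hy.1, fun h2 => hy.2.1 (hn _ hy.1 _ h₀ (h2.trans e₀.symm)),
        fun h2 => hy.2.2 (hn _ hy.1 _ h₁ (h2.trans e₁.symm))⟩
    · intro y hy y' hy' h
      exact hn _ (mem_tok₀.1 (Finset.mem_coe.1 hy)).1 _ (mem_tok₀.1 (Finset.mem_coe.1 hy')).1 h
    · intro x hx
      have hx := mem_tok₀.1 (Finset.mem_coe.1 hx)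
      obtain ⟨y, b1, b2⟩ := hs x hx.1
      refine ⟨y, Finset.mem_coe.2 (mem_tok₀.2 ⟨b1, fun h => hx.2.1 ?_, fun h => hx.2.2 ?_⟩), b2⟩
      · rw [← b2, ← e₀, h]; rfl
      · rw [← b2, ← e₁, h]; rfl
    · intro y _; rfl
  have h1 : ∑ y ∈ Y.tok₀, (src B y (reps a (n y) ++ X.path (y * B.q a ^ n y)) : Multiset Q) =
      ∑ y ∈ Y.tok₀, ∑ i ∈ Finset.range (n y), {y * B.q a ^ i} +
      ∑ x ∈ X.tok₀, (src B x (X.path x) : Multiset Q) := by
    rw [← t0, ← Finset.sum_add_distrib]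
    refine Finset.sum_congr rfl fun x _ => ?_
    rw [src_append, fin_reps, ← src_reps]
    rfl
  have h2 : ∑ y ∈ L, ∑ i ∈ Finset.range (n y), ({y * B.q a ^ i} : Multiset Q) =
      ∑ y ∈ Y.tok₀, ∑ i ∈ Finset.range (n y), {y * B.q a ^ i} +
      ∑ i ∈ Finset.range (n v₀), {v₀ * B.q a ^ i} +
      ∑ i ∈ Finset.range (n v₁), {v₁ * B.q a ^ i} := by
    rw [← hLY]
    show (Y.L₀.val.map fun y => ∑ i ∈ Finset.range (n y), ({y * B.q a ^ i} : Multiset Q)).sum = _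
    rw [Y.L₀_val, Multiset.map_add, Multiset.map_add, Multiset.sum_add, Multiset.sum_add]
    simp only [Multiset.map_singleton, Multiset.sum_singleton]
    rfl
  have h3 : (B.verts v₀ (reps a (n v₀) ++ (X.cup ++ reps (B.inv a) (n v₁))) : Multiset Q) =
      (B.verts X.u₀ X.cup : Multiset Q) + ∑ i ∈ Finset.range (n v₀), {v₀ * B.q a ^ i} +
      ∑ i ∈ Finset.range (n v₁), {v₁ * B.q a ^ i} := by
    rw [verts_eq, src_append, src_append, fin_append, fin_append, fin_reps a (n v₀) v₀, e₀, X.cup_fin, ← e₁,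
      fin_reps_inv, verts_eq, X.cup_fin, ← e₁, ← Multiset.coe_add, ← Multiset.coe_add, ← Multiset.coe_add,
      ← Multiset.coe_add, src_reps a (n v₀) v₀]
    have e3 := src_reps_rev (B := B) a (n v₁) v₁
    have e5 : ∑ i ∈ Finset.range (n v₀), ({v₀ * B.q a ^ i} : Multiset Q) +
        ((src B X.u₀ X.cup : List Q) : Multiset Q) +
        (((src B (v₁ * B.q a ^ n v₁) (reps (B.inv a) (n v₁)) : List Q) : Multiset Q) + {v₁}) =
        ∑ i ∈ Finset.range (n v₀), ({v₀ * B.q a ^ i} : Multiset Q) +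
        ((src B X.u₀ X.cup : List Q) : Multiset Q) +
        ({v₁ * B.q a ^ n v₁} + ∑ i ∈ Finset.range (n v₁), {v₁ * B.q a ^ i}) := by rw [e3]
    have e6 : (([v₁] : List Q) : Multiset Q) = {v₁} := rfl
    have e7 : (([v₁ * B.q a ^ n v₁] : List Q) : Multiset Q) = {v₁ * B.q a ^ n v₁} := rfl
    rw [e6, e7]
    rw [show ∑ i ∈ Finset.range (n v₀), ({v₀ * B.q a ^ i} : Multiset Q) +
        (((src B X.u₀ X.cup : List Q) : Multiset Q) +
          ((src B (v₁ * B.q a ^ n v₁) (reps (B.inv a) (n v₁)) : List Q) : Multiset Q)) + {v₁} =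
        ∑ i ∈ Finset.range (n v₀), {v₀ * B.q a ^ i} + ((src B X.u₀ X.cup : List Q) : Multiset Q) +
          (((src B (v₁ * B.q a ^ n v₁) (reps (B.inv a) (n v₁)) : List Q) : Multiset Q) + {v₁}) by abel, e5]
    abel
  have e0 : Y.R = ∑ y ∈ Y.tok₀, (src B y (reps a (n y) ++ X.path (y * B.q a ^ n y)) : Multiset Q) +
      (B.verts v₀ (reps a (n v₀) ++ (X.cup ++ reps (B.inv a) (n v₁))) : Multiset Q) +
      ((src B X.w₀ X.cap).tail : Multiset Q) := rfl
  rw [e0, h1, h2, h3]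
  unfold R
  abel

end TW

end Pool.Agent.Lib.MP_688fd0_co.SQ2
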