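import Pool.Agent.Lib.MP_688fd0_co.SQ2.H98.Sheet

/-!
GADG, first part: gadgets on a frontier which is a union of cosets of `D` (no offsets).

`s₀` is the near vertex, `s₁` the far vertex; the cup goes from `s₀` up to `v = s₀ A^p`, by the label `b` to `v b`, and down
to `s₁`; the cap from `w₀` down to `v'`, by `b` to `v' b` and up to `w₁`.

`Γ` is the local group: its elements are pairs (element of `Q`, level).
-/

set_option autoImplicit false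

namespace Pool.Agent.Lib.MP_688fd0_co.SQ2

open Pool.Agent.Lib.MP_688fd0_co.OSF Finset

universe u v w

/-- `x`, with level `n`, belongs to the local group `Γ`. -/
def inG {Q : Type u} [Group Q] (Γ : Subgroup (Q × Multiplicative ℤ)) (x : Q) (n : ℤ) : Prop :=
  (x, Multiplicative.ofAdd n) ∈ Γ

section inG

variable {Q : Type u} [Group Q] {Γ : Subgroup (Q × Multiplicative ℤ)}

theorem inG_one : inG Γ 1 0 := Γ.one_mem

theorem inG_mul {x y : Q} {m n : ℤ} (h : inG Γ x m) (h' : inG Γ y n) : inG Γ (x * y) (m + n) :=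
  Γ.mul_mem h h'

theorem inG_inv {x : Q} {m : ℤ} (h : inG Γ x m) : inG Γ x⁻¹ (-m) := Γ.inv_mem h

theorem inG_pow {x : Q} {m : ℤ} (h : inG Γ x m) (k : ℕ) : inG Γ (x ^ k) (k * m) := by
  have h1 := Γ.pow_mem h k
  have h2 : ((x, Multiplicative.ofAdd m) : Q × Multiplicative ℤ) ^ k = (x ^ k, Multiplicative.ofAdd (k * m)) := by
    rw [Prod.pow_mk, ← ofAdd_nsmul, nsmul_eq_mul]
  rwa [h2] at h1

theorem inG_mul_right {x y : Q} {m n : ℤ} (h' : inG Γ y n) : inG Γ (x * y) (m + n) ↔ inG Γ x m := by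
  refine ⟨fun h => ?_, fun h => inG_mul h h'⟩
  have := inG_mul h (inG_inv h')
  rwa [mul_inv_cancel_right, add_neg_cancel_right] at this

theorem inG_mul_left {x y : Q} {m n : ℤ} (h' : inG Γ x m) : inG Γ (x * y) (m + n) ↔ inG Γ y n := by
  refine ⟨fun h => ?_, fun h => inG_mul h' h⟩
  have := inG_mul (inG_inv h') h
  rwa [inv_mul_cancel_left, neg_add_cancel_left] at this

theorem inG_lvl {x : Q} {m n : ℤ} (h : inG Γ x m) (e : m = n) : inG Γ x n := e ▸ h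

/-- Powers of an element of level one. -/
theorem inG_pow1 {x : Q} (h : inG Γ x 1) (k : ℕ) : inG Γ (x ^ k) k := by
  have := inG_pow h k
  rwa [mul_one] at this

end inG

/-- The local group generated by `(x, m)` and `(y, n)`. -/
def lg {Q : Type u} [Group Q] (x : Q) (m : ℤ) (y : Q) (n : ℤ) : Subgroup (Q × Multiplicative ℤ) :=
  Subgroup.closure {(x, Multiplicative.ofAdd m), (y, Multiplicative.ofAdd n)}

theorem lg_left {Q : Type u} [Group Q] (x : Q) (m : ℤ) (y : Q) (n : ℤ) : inG (lg x m y n) x m :=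
  Subgroup.subset_closure (by simp)

theorem lg_right {Q : Type u} [Group Q] (x : Q) (m : ℤ) (y : Q) (n : ℤ) : inG (lg x m y n) y n :=
  Subgroup.subset_closure (by simp)

/-- `s` is a vertex of the two sheets of the gadget and belongs to its component. -/
def Cmp {Q : Type u} [Group Q] (D : Subgroup Q) (Γ : Subgroup (Q × Multiplicative ℤ)) (s₀ s₁ v b : Q) (p p' : ℕ)
    (s : Q) : Prop :=
  (s₀⁻¹ * s ∈ D ∧ inG Γ (v⁻¹ * s) (-p)) ∨ (s₁⁻¹ * s ∈ D ∧ inG Γ (v⁻¹ * s * b⁻¹) (-p'))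

/-- `T` is a gadget of height `M` for the label `b` on the frontier `F`. -/
structure GadF {Q : Type u} [Group Q] [DecidableEq Q] {B : Lb.{u, v} Q} (a : B.L) (D : Subgroup Q)
    (F : Finset Q) (b : B.L) (Γ : Subgroup (Q × Multiplicative ℤ)) (s₀ s₁ v v' : Q) (T : TW B)
    (M p p' q q' : ℕ) : Prop where
  rect : Rect a T M
  pos : 0 < M
  L₀ : T.L₀ = F
  u₀ : T.u₀ = s₀
  u₁ : T.u₁ = s₁
  e₀ : v = s₀ * B.q a ^ p
  e₁ : v * B.q b = s₁ * B.q a ^ p'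
  cup : T.cup = reps a p ++ b :: reps (B.inv a) p'
  w₀ : T.w₀ = v' * B.q a ^ q
  w₁ : T.w₁ = v' * B.q b * B.q a ^ q'
  cap : T.cap = reps (B.inv a) q ++ b :: reps a q'
  pq : p + q ≤ M
  pq' : p' + q' = p + q
  gam : inG Γ (v⁻¹ * v') ((M - p - q : ℕ) : ℤ)
  lvl : v⁻¹ * v' * (B.q a ^ (M - p - q))⁻¹ ∈ D
  tok : ∀ s ∈ F, s ≠ s₀ → s ≠ s₁ → Cmp D Γ s₀ s₁ v (B.q b) p p' s →
    ∃ s' ∈ F, Cmp D Γ s₀ s₁ v (B.q b) p p' s' ∧ T.f s = s' * B.q a ^ M
  out : ∀ s ∈ F, s ≠ s₀ → s ≠ s₁ → ¬ Cmp D Γ s₀ s₁ v (B.q b) p p' s →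
    T.f s = s * B.q a ^ M ∧ T.path s = reps a M

section cmp

variable {Q : Type u} [Group Q] {D : Subgroup Q} {Γ : Subgroup (Q × Multiplicative ℤ)}

/-- The component in the case of one sheet. -/
theorem cmp_one {s₀ s₁ v b s : Q} {p p' : ℕ} (h : s₀⁻¹ * s₁ ∈ D) (hb : inG Γ b (p' - p)) :
    Cmp D Γ s₀ s₁ v b p p' s ↔ s₀⁻¹ * s ∈ D ∧ inG Γ (v⁻¹ * s) (-p) := by
  constructor
  · rintro (h1 | ⟨h1, h2⟩)
    · exact h1
    · refine ⟨?_, ?_⟩
      · have := D.mul_mem h h1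
        have e : s₀⁻¹ * s₁ * (s₁⁻¹ * s) = s₀⁻¹ * s := by group
        rwa [e] at this
      · have := inG_mul h2 hb
        rw [inv_mul_cancel_right] at this
        convert this using 1
        ring
  · exact fun h1 => Or.inl h1

end cmp

variable {Q : Type u} [Group Q] [DecidableEq Q] {B : Lb.{u, v} Q} {a : B.L} {D : Subgroup Q} [hD : D.Normal]
  (hα : ∀ q : Q, B.q a * q * (B.q a)⁻¹ * q⁻¹ ∈ D) {L : Finset Q} (hL : ∀ y ∈ L, ∀ d ∈ D, y * d ∈ L)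

omit [DecidableEq Q] in
theorem q_inv_inv (g : B.L) : B.q (B.inv (B.inv g)) = B.q g := by
  rw [B.q_inv, B.q_inv, inv_inv]

include hα hL in
/-- Gadget for a label in `D`. -/
theorem nat0 (x : Q) (hx : x ∈ L) (g : B.L) (hg : B.q g ∈ D) :
    ∃ (M : ℕ) (T : TW B) (v' : Q), M ≤ L.card.factorial ∧
      GadF a D L g (lg (B.q a) 1 (B.q g) 0) x (x * B.q g) x v' T M 0 0 0 0 := by
  classical
  set Γ := lg (B.q a) 1 (B.q g) 0 with hΓ
  have hΓa : inG Γ (B.q a) 1 := lg_left _ _ _ _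
  have hΓg : inG Γ (B.q g) 0 := lg_right _ _ _ _
  set φ : Q → Q := fun y => if x⁻¹ * y ∈ D then y * B.q g else y with hφ
  have p1 : ∀ y, x⁻¹ * y ∈ D → φ y = y * B.q g := fun y h => if_pos h
  have p2 : ∀ y, x⁻¹ * y ∉ D → φ y = y := fun y h => if_neg h
  have p3 : ∀ y, x⁻¹ * y ∈ D → x⁻¹ * (y * B.q g) ∈ D := fun y h => by
    rw [← mul_assoc]; exact D.mul_mem h hg
  have m1 : ∀ y ∈ L, φ y ∈ L := by
    intro y hy
    by_cases h : x⁻¹ * y ∈ D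
    · rw [p1 y h]
      exact hL y hy _ hg
    · rw [p2 y h]; exact hy
  have m2 : ∀ y ∈ L, ∀ y' ∈ L, φ y = φ y' → y = y' := by
    intro y _ y' _ he
    by_cases h : x⁻¹ * y ∈ D <;> by_cases h' : x⁻¹ * y' ∈ D
    · rw [p1 y h, p1 y' h'] at he; exact mul_right_cancel he
    · rw [p1 y h, p2 y' h'] at he; exact absurd (he ▸ p3 y h) h'
    · rw [p2 y h, p1 y' h'] at he; exact absurd (he ▸ p3 y' h') h
    · rw [p2 y h, p2 y' h'] at he; exact he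
  set P := permOf φ m1 m2 with hP
  set Dp : ℕ → L → Prop := fun l y =>
    x⁻¹ * (y : Q) ∈ D ∧ inG Γ (x⁻¹ * (B.q a ^ l * (y : Q))) l with hDp
  have hGa : ∀ (l : ℕ) (y : L), x⁻¹ * (B.q a ^ (l + 1) * (pA hα hL y : Q)) =
      x⁻¹ * (B.q a ^ l * (y : Q)) * B.q a := by
    intro l y
    rw [pA_apply, pow_succ]; group
  obtain ⟨m, y, X, a1, a2, a3, a4, a5, a6, a7, a8, a9, a10, a11, a12, a13⟩ :=
    TG0 (z := B.q a) (a := a) (A := pA hα hL) (P := P) (ℓ := fun _ => g) (D := Dp)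
      (pA_mul hα hL) (fun l y hy => (p1 _ hy.1).symm)
      (fun l y hy => by
        refine ⟨?_, ?_⟩
        · rw [pA_apply, conjD1 hα]; exact hy.1
        · rw [hGa, Nat.cast_succ]
          exact inG_mul hy.2 hΓa)
      (fun l y hy => by
        have e : (P y : Q) = (y : Q) * B.q g := p1 _ hy.1
        refine ⟨?_, ?_⟩
        · rw [e]; exact p3 _ hy.1
        · rw [e, ← mul_assoc (B.q a ^ l), ← mul_assoc]
          exact inG_lvl (inG_mul hy.2 hΓg) (add_zero _))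
      (fun l y hy => by
        refine ⟨?_, ?_⟩
        · have h := hy.1
          rwa [pA_apply, conjD1 hα] at h
        · have h := hy.2
          rw [hGa, Nat.cast_succ] at h
          exact (inG_mul_right hΓa).1 h)
      ⟨x, hx⟩ ⟨by simp, by simpa using inG_one⟩
  have hrect : Rect a X m := by
    refine ⟨?_, ?_⟩
    · rw [a4, a5, rt_L hα hL]
    · rw [a4, a12, lev_L hα hL rfl]
  have hcmp : ∀ s, Cmp D Γ x (x * B.q g) x (B.q g) 0 0 s ↔ x⁻¹ * s ∈ D ∧ inG Γ (x⁻¹ * s) 0 := fun s =>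
    cmp_one (by rw [inv_mul_cancel_left]; exact hg) hΓg
  have hu1 : X.u₁ = x * B.q g := by rw [a7]; exact p1 x (by simp)
  obtain ⟨t1, t2⟩ := tk_tok hα hL a13 (Cmp D Γ x (x * B.q g) x (B.q g) 0 0)
    (fun s => by
      rw [hcmp]
      show (x⁻¹ * (s : Q) ∈ D ∧ inG Γ (x⁻¹ * (B.q a ^ 0 * (s : Q))) 0) ↔ _
      rw [pow_zero, one_mul])
    (fun y hy => by
      rw [hcmp]
      have h1 := hy.1
      have h2 := hy.2
      refine ⟨?_, ?_⟩
      · have := (conjD3 hα m x⁻¹ (y : Q) 1).2 (by rw [mul_one]; exact h1)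
        rwa [mul_one] at this
      · rw [← mul_assoc x⁻¹]
        exact inG_lvl (inG_mul h2 (inG_inv (inG_pow1 hΓa m))) (add_neg_cancel _))
  have hu0 : X.u₀ = x := a6
  rw [hu0, hu1] at t1 t2
  refine ⟨m, X, X.w₀, a2, ⟨hrect, by omega, a4, hu0, hu1, ?_, ?_, a8, ?_, ?_, a11, ?_, rfl, ?_, ?_, t1, t2⟩⟩
  · rw [pow_zero, mul_one]
  · rw [pow_zero, mul_one]
  · rw [pow_zero, mul_one]
  · rw [pow_zero, mul_one, a10, a9]
    have : (P y : Q) = (y : Q) * B.q g := p1 _ a3.1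
    rw [this, mul_assoc]
  · omega
  · rw [a9, Nat.sub_zero, Nat.sub_zero]; exact a3.2
  · rw [a9, Nat.sub_zero, Nat.sub_zero]
    have := (conjD3 hα m x⁻¹ (y : Q) 1).2 (by rw [mul_one]; exact a3.1)
    rwa [mul_one, ← mul_assoc x⁻¹] at this

include hα hL in
/-- Gadget for a label in `D A`. -/
theorem nat1 (x : Q) (hx : x ∈ L) (g : B.L) (hg : (B.q a)⁻¹ * B.q g ∈ D) (hne : B.q g ≠ B.q a) :
    ∃ (M : ℕ) (T : TW B) (s₁ v' : Q), M ≤ 2 * L.card.factorial ∧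
      GadF a D L g (lg (B.q a) 1 (B.q g) 1) x s₁ x v' T M 0 1 1 0 := by
  classical
  set Γ := lg (B.q a) 1 (B.q g) 1 with hΓ
  have hΓa : inG Γ (B.q a) 1 := lg_left _ _ _ _
  have hΓg : inG Γ (B.q g) 1 := lg_right _ _ _ _
  set φ : Q → Q := fun y => if x⁻¹ * y ∈ D then (B.q a)⁻¹ * (y * B.q g) else y with hφ
  have p1 : ∀ y, x⁻¹ * y ∈ D → φ y = (B.q a)⁻¹ * (y * B.q g) := fun y h => if_pos h
  have p2 : ∀ y, x⁻¹ * y ∉ D → φ y = y := fun y h => if_neg h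
  have p4 : ∀ y, (B.q a)⁻¹ * (y * B.q g) = (B.q a)⁻¹ * (y * B.q a) * ((B.q a)⁻¹ * B.q g) := by
    intro y; group
  have p3 : ∀ y, x⁻¹ * y ∈ D → x⁻¹ * ((B.q a)⁻¹ * (y * B.q g)) ∈ D := fun y h => by
    rw [p4, ← mul_assoc x⁻¹]
    exact D.mul_mem ((conjD1 hα _ _).2 h) hg
  have m1 : ∀ y ∈ L, φ y ∈ L := by
    intro y hy
    by_cases h : x⁻¹ * y ∈ D
    · rw [p1 y h, p4]
      exact hL _ (conjL1 hα hL hy) _ hg
    · rw [p2 y h]; exact hy
  have m2 : ∀ y ∈ L, ∀ y' ∈ L, φ y = φ y' → y = y' := by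
    intro y _ y' _ he
    by_cases h : x⁻¹ * y ∈ D <;> by_cases h' : x⁻¹ * y' ∈ D
    · rw [p1 y h, p1 y' h'] at he; exact mul_right_cancel (mul_left_cancel he)
    · rw [p1 y h, p2 y' h'] at he; exact absurd (he ▸ p3 y h) h'
    · rw [p2 y h, p1 y' h'] at he; exact absurd (he ▸ p3 y' h') h
    · rw [p2 y h, p2 y' h'] at he; exact he
  set P := permOf φ m1 m2 with hP
  set Dp : ℕ → L → Prop := fun l y =>
    x⁻¹ * (y : Q) ∈ D ∧ inG Γ (x⁻¹ * (B.q a ^ l * (y : Q))) l with hDp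
  have hGa : ∀ (l : ℕ) (y : L), x⁻¹ * (B.q a ^ (l + 1) * (pA hα hL y : Q)) =
      x⁻¹ * (B.q a ^ l * (y : Q)) * B.q a := by
    intro l y
    rw [pA_apply, pow_succ]; group
  have hPe : ∀ y : L, x⁻¹ * (y : Q) ∈ D → (y : Q) * B.q g = B.q a * (P y : Q) := by
    intro y hy
    have e : (P y : Q) = (B.q a)⁻¹ * ((y : Q) * B.q g) := p1 _ hy
    rw [e, mul_inv_cancel_left]
  obtain ⟨m, y, X, a1, a2, a3, a4, a5, a6, a7, a8, a9, a10, a11, a12, a13⟩ :=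
    TG1 (z := B.q a) (a := a) (b := g) (A := pA hα hL) (P := P) (D := Dp)
      (pA_mul hα hL) (fun l y hy => hPe y hy.1)
      (fun l y hy => by
        refine ⟨?_, ?_⟩
        · rw [pA_apply, conjD1 hα]; exact hy.1
        · rw [hGa, Nat.cast_succ]
          exact inG_mul hy.2 hΓa)
      (fun l y hy => by
        have e : (P y : Q) = (B.q a)⁻¹ * ((y : Q) * B.q g) := p1 _ hy.1
        refine ⟨?_, ?_⟩
        · rw [e]; exact p3 _ hy.1
        · have : x⁻¹ * (B.q a ^ (l + 1) * (P y : Q)) = x⁻¹ * (B.q a ^ l * (y : Q)) * B.q g := by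
            rw [e, pow_succ]; group
          rw [this, Nat.cast_succ]
          exact inG_mul hy.2 hΓg)
      (fun l y hy => by
        refine ⟨?_, ?_⟩
        · have h := hy.1
          rwa [pA_apply, conjD1 hα] at h
        · have h := hy.2
          rw [hGa, Nat.cast_succ] at h
          exact (inG_mul_right hΓa).1 h)
      hne ⟨x, hx⟩ ⟨by simp, by simpa using inG_one⟩
  have hrect : Rect a X (m + 1) := by
    refine ⟨?_, ?_⟩
    · rw [a4, a5, rt_L hα hL]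
    · rw [a4, a12, lev_L hα hL rfl]
  have hu0 : X.u₀ = x := a6
  have hu1 : X.u₁ * B.q a = x * B.q g := by
    rw [a7, pA_mul hα hL, Equiv.apply_symm_apply, hPe ⟨x, hx⟩ (by simp)]
  have hs : x⁻¹ * X.u₁ ∈ D := by
    rw [← conjD1 hα]
    rw [hu1]
    exact p3 x (by simp)
  have hcmp : ∀ s, Cmp D Γ x X.u₁ x (B.q g) 0 1 s ↔ x⁻¹ * s ∈ D ∧ inG Γ (x⁻¹ * s) 0 := fun s =>
    cmp_one hs hΓg
  obtain ⟨t1, t2⟩ := tk_tok hα hL a13 (Cmp D Γ x X.u₁ x (B.q g) 0 1)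
    (fun s => by
      rw [hcmp]
      show (x⁻¹ * (s : Q) ∈ D ∧ inG Γ (x⁻¹ * (B.q a ^ 0 * (s : Q))) 0) ↔ _
      rw [pow_zero, one_mul])
    (fun y hy => by
      rw [hcmp]
      have h1 := hy.1
      have h2 := hy.2
      refine ⟨?_, ?_⟩
      · have := (conjD3 hα (m + 1) x⁻¹ (y : Q) 1).2 (by rw [mul_one]; exact h1)
        rwa [mul_one] at this
      · rw [← mul_assoc x⁻¹]
        exact inG_lvl (inG_mul h2 (inG_inv (inG_pow1 hΓa (m + 1)))) (add_neg_cancel _))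
  have hv : X.w₀ = B.q a ^ m * (y : Q) * B.q a := by
    rw [a9, pow_succ, mul_assoc, ← pA_mul, mul_assoc]
  refine ⟨m + 1, X, X.u₁, B.q a ^ m * (y : Q), a2, ⟨hrect, by omega, a4, hu0, rfl, ?_, ?_, a8, ?_, ?_, a11,
    ?_, rfl, ?_, ?_, ?_, ?_⟩⟩
  · rw [pow_zero, mul_one]
  · rw [pow_one, hu1]
  · rw [pow_one]; exact hv
  · rw [pow_zero, mul_one, a10, pow_succ, mul_assoc, ← hPe y a3.1, mul_assoc]
  · omega
  · rw [Nat.sub_zero, Nat.add_sub_cancel]; exact a3.2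
  · rw [Nat.sub_zero, Nat.add_sub_cancel]
    have := (conjD3 hα m x⁻¹ (y : Q) 1).2 (by rw [mul_one]; exact a3.1)
    rwa [mul_one, ← mul_assoc x⁻¹] at this
  · rw [hu0] at t1; exact t1
  · rw [hu0] at t2; exact t2

include hα hL in
/-- Gadget for a label in `D A⁻¹`. -/
theorem nat2 (x : Q) (hx : x ∈ L) (g : B.L) (hg : B.q a * B.q g ∈ D) (hne : (B.q g)⁻¹ ≠ B.q a) :
    ∃ (M : ℕ) (T : TW B) (v' : Q), M ≤ 2 * L.card.factorial ∧
      GadF a D L g (lg (B.q a) 1 (B.q g) (-1)) x (x * B.q a * B.q g) (x * B.q a) v' T M 1 0 0 1 := by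
  classical
  set Γ := lg (B.q a) 1 (B.q g) (-1) with hΓ
  have hΓa : inG Γ (B.q a) 1 := lg_left _ _ _ _
  have hΓg : inG Γ (B.q g) (-1) := lg_right _ _ _ _
  set b : B.L := B.inv g with hb
  have hqb : B.q b = (B.q g)⁻¹ := B.q_inv g
  have hbD : (B.q a)⁻¹ * B.q b ∈ D := by
    have h := D.inv_mem hg
    rw [mul_inv_rev] at h
    have h2 := hD.conj_mem _ h (B.q g)
    rw [hqb]
    have h3 : B.q g * ((B.q g)⁻¹ * (B.q a)⁻¹) * (B.q g)⁻¹ = (B.q a)⁻¹ * (B.q g)⁻¹ := by group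
    rwa [h3] at h2
  have hΓb : inG Γ (B.q b) 1 := by
    rw [hqb]; exact inG_lvl (inG_inv hΓg) (neg_neg _)
  set y₀ : Q := x * B.q a * B.q g with hy₀
  have hy₀D : x⁻¹ * y₀ ∈ D := by
    have : x⁻¹ * y₀ = B.q a * B.q g := by rw [hy₀]; group
    rw [this]; exact hg
  have hbase : ∀ y : Q, x⁻¹ * y ∈ D ↔ y₀⁻¹ * y ∈ D := by
    intro y
    have e : y₀⁻¹ * y = (x⁻¹ * y₀)⁻¹ * (x⁻¹ * y) := by group
    rw [e]
    exact (D.mul_mem_cancel_left (D.inv_mem hy₀D)).symm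
  have hy₀L : y₀ ∈ L := by
    have := hL x hx _ hy₀D
    rwa [mul_inv_cancel_left] at this
  set φ : Q → Q := fun y => if x⁻¹ * y ∈ D then (B.q a)⁻¹ * (y * B.q b) else y with hφ
  have p1 : ∀ y, x⁻¹ * y ∈ D → φ y = (B.q a)⁻¹ * (y * B.q b) := fun y h => if_pos h
  have p2 : ∀ y, x⁻¹ * y ∉ D → φ y = y := fun y h => if_neg h
  have p4 : ∀ y, (B.q a)⁻¹ * (y * B.q b) = (B.q a)⁻¹ * (y * B.q a) * ((B.q a)⁻¹ * B.q b) := by
    intro y; group
  have p3 : ∀ y, x⁻¹ * y ∈ D → x⁻¹ * ((B.q a)⁻¹ * (y * B.q b)) ∈ D := fun y h => by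
    rw [p4, ← mul_assoc x⁻¹]
    exact D.mul_mem ((conjD1 hα _ _).2 h) hbD
  have m1 : ∀ y ∈ L, φ y ∈ L := by
    intro y hy
    by_cases h : x⁻¹ * y ∈ D
    · rw [p1 y h, p4]
      exact hL _ (conjL1 hα hL hy) _ hbD
    · rw [p2 y h]; exact hy
  have m2 : ∀ y ∈ L, ∀ y' ∈ L, φ y = φ y' → y = y' := by
    intro y _ y' _ he
    by_cases h : x⁻¹ * y ∈ D <;> by_cases h' : x⁻¹ * y' ∈ D
    · rw [p1 y h, p1 y' h'] at he; exact mul_right_cancel (mul_left_cancel he)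
    · rw [p1 y h, p2 y' h'] at he; exact absurd (he ▸ p3 y h) h'
    · rw [p2 y h, p1 y' h'] at he; exact absurd (he ▸ p3 y' h') h
    · rw [p2 y h, p2 y' h'] at he; exact he
  set P := permOf φ m1 m2 with hP
  set Dp : ℕ → L → Prop := fun l y =>
    x⁻¹ * (y : Q) ∈ D ∧ inG Γ (y₀⁻¹ * (B.q a ^ l * (y : Q))) l with hDp
  have hGa : ∀ (l : ℕ) (y : L), y₀⁻¹ * (B.q a ^ (l + 1) * (pA hα hL y : Q)) =
      y₀⁻¹ * (B.q a ^ l * (y : Q)) * B.q a := by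
    intro l y
    rw [pA_apply, pow_succ]; group
  have hPe : ∀ y : L, x⁻¹ * (y : Q) ∈ D → (y : Q) * B.q b = B.q a * (P y : Q) := by
    intro y hy
    have e : (P y : Q) = (B.q a)⁻¹ * ((y : Q) * B.q b) := p1 _ hy
    rw [e, mul_inv_cancel_left]
  obtain ⟨m, y, X, a1, a2, a3, a4, a5, a6, a7, a8, a9, a10, a11, a12, a13⟩ :=
    TG1 (z := B.q a) (a := a) (b := b) (A := pA hα hL) (P := P) (D := Dp)
      (pA_mul hα hL) (fun l y hy => hPe y hy.1)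
      (fun l y hy => by
        refine ⟨?_, ?_⟩
        · rw [pA_apply, conjD1 hα]; exact hy.1
        · rw [hGa, Nat.cast_succ]
          exact inG_mul hy.2 hΓa)
      (fun l y hy => by
        have e : (P y : Q) = (B.q a)⁻¹ * ((y : Q) * B.q b) := p1 _ hy.1
        refine ⟨?_, ?_⟩
        · rw [e]; exact p3 _ hy.1
        · have : y₀⁻¹ * (B.q a ^ (l + 1) * (P y : Q)) = y₀⁻¹ * (B.q a ^ l * (y : Q)) * B.q b := by
            rw [e, pow_succ]; group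
          rw [this, Nat.cast_succ]
          exact inG_mul hy.2 hΓb)
      (fun l y hy => by
        refine ⟨?_, ?_⟩
        · have h := hy.1
          rwa [pA_apply, conjD1 hα] at h
        · have h := hy.2
          rw [hGa, Nat.cast_succ] at h
          exact (inG_mul_right hΓa).1 h)
      (by rw [hqb]; exact hne) ⟨y₀, hy₀L⟩ ⟨hy₀D, by simpa using inG_one⟩
  have hrect : Rect a X (m + 1) := by
    refine ⟨?_, ?_⟩
    · rw [a4, a5, rt_L hα hL]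
    · rw [a4, a12, lev_L hα hL rfl]
  have hu0 : X.u₀ = y₀ := a6
  have hu1 : X.u₁ = x := by
    have h2 : X.u₁ * B.q a = x * B.q a := by
      rw [a7, pA_mul hα hL, Equiv.apply_symm_apply]
      have := hPe ⟨y₀, hy₀L⟩ hy₀D
      rw [← this]
      show y₀ * B.q b = _
      rw [hqb, hy₀, mul_inv_cancel_right]
    exact mul_right_cancel h2
  have hw₁ : X.w₁ = B.q a ^ m * (y : Q) * B.q b := by
    rw [a10, pow_succ, mul_assoc, ← hPe y a3.1, mul_assoc]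
  have hw₀ : X.w₀ = B.q a ^ m * (y : Q) * B.q a := by
    rw [a9, pow_succ, mul_assoc, ← pA_mul, mul_assoc]
  have hcmp : ∀ s, Cmp D Γ x y₀ (x * B.q a) (B.q g) 1 0 s ↔ x⁻¹ * s ∈ D ∧ inG Γ (y₀⁻¹ * s) 0 := by
    intro s
    rw [cmp_one hy₀D hΓg]
    have e : (x * B.q a)⁻¹ * s = B.q g * (y₀⁻¹ * s) := by rw [hy₀]; group
    have e2 := inG_mul_left (y := y₀⁻¹ * s) (n := 0) hΓg
    rw [add_zero] at e2
    rw [e, Nat.cast_one, e2]
  obtain ⟨t1, t2⟩ := tk_tok hα hL a13 (Cmp D Γ x y₀ (x * B.q a) (B.q g) 1 0)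
    (fun s => by
      rw [hcmp]
      show (x⁻¹ * (s : Q) ∈ D ∧ inG Γ (y₀⁻¹ * (B.q a ^ 0 * (s : Q))) 0) ↔ _
      rw [pow_zero, one_mul])
    (fun y hy => by
      rw [hcmp]
      have h1 := hy.1
      have h2 := hy.2
      refine ⟨?_, ?_⟩
      · have := (conjD3 hα (m + 1) x⁻¹ (y : Q) 1).2 (by rw [mul_one]; exact h1)
        rwa [mul_one] at this
      · rw [← mul_assoc y₀⁻¹]
        exact inG_lvl (inG_mul h2 (inG_inv (inG_pow1 hΓa (m + 1)))) (add_neg_cancel _))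
  rw [hu0, hu1] at t1 t2
  have hf : B.fin X.flipCup.u₀ [a, g] = X.flipCup.u₁ := by
    show X.u₁ * B.q a * B.q g = X.u₀
    rw [hu1, hu0]
  have hf2 : B.fin (X.flipCup.setCup [a, g] hf).flipCap.w₀ [g, a] =
      (X.flipCup.setCup [a, g] hf).flipCap.w₁ := by
    show X.w₁ * B.q g * B.q a = X.w₀
    rw [hw₁, hw₀, hqb]
    group
  refine ⟨m + 1, (X.flipCup.setCup [a, g] hf).flipCap.setCap [g, a] hf2, X.w₁, a2,
    ⟨?_, by omega, a4, hu1, hu0, ?_, ?_, rfl, ?_, ?_, rfl, ?_, rfl, ?_, ?_, ?_, ?_⟩⟩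
  · refine ⟨hrect.top, ?_⟩
    rw [TW.setCap_R, TW.flipCap_R, TW.setCup_R, TW.flipCup_R]
    · exact hrect.reg
    · show B.verts X.u₁ [a, g] = B.verts X.u₁ (B.rev X.cup)
      rw [a8]
      show [X.u₁, X.u₁ * B.q a, X.u₁ * B.q a * B.q g] =
        [X.u₁, X.u₁ * B.q (B.inv (B.inv a)), X.u₁ * B.q (B.inv (B.inv a)) * B.q (B.inv (B.inv g))]
      rw [q_inv_inv, q_inv_inv]
    · show B.verts X.w₁ [g, a] = B.verts X.w₁ (B.rev X.cap)
      rw [a11]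
      show [X.w₁, X.w₁ * B.q g, X.w₁ * B.q g * B.q a] =
        [X.w₁, X.w₁ * B.q (B.inv (B.inv g)), X.w₁ * B.q (B.inv (B.inv g)) * B.q (B.inv (B.inv a))]
      rw [q_inv_inv, q_inv_inv]
  · rw [pow_one]
  · rw [pow_zero, mul_one]
  · rw [pow_zero, mul_one]; rfl
  · rw [pow_one]
    exact hf2.symm
  · omega
  · have : (x * B.q a)⁻¹ * X.w₁ = B.q g * (y₀⁻¹ * (B.q a ^ m * (y : Q))) * B.q b := by
      rw [hw₁, hy₀]; group
    rw [this, show m + 1 - 1 - 0 = m by omega]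
    exact inG_lvl (inG_mul (inG_mul hΓg a3.2) hΓb) (by ring)
  · rw [show m + 1 - 1 - 0 = m by omega, hw₁]
    have e1 : (x * B.q a)⁻¹ * (B.q a ^ m * (y : Q) * B.q b) * (B.q a ^ m)⁻¹ =
        (x * B.q a)⁻¹ * (B.q a ^ m * ((y : Q) * B.q b) * (B.q a ^ m)⁻¹) * 1 := by group
    rw [e1, conjD3 hα]
    have e2 : (x * B.q a)⁻¹ * ((y : Q) * B.q b) * 1 =
        (B.q a)⁻¹ * (x⁻¹ * (y : Q)) * (B.q a)⁻¹⁻¹ * ((B.q a)⁻¹ * B.q b) := by group
    rw [e2]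
    exact D.mul_mem (hD.conj_mem _ a3.1 _) hbD
  · exact fun s h h0 h1 hc => t1 s h h1 h0 hc
  · exact fun s h h0 h1 hc => t2 s h h1 h0 hc

end Pool.Agent.Lib.MP_688fd0_co.SQ2
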