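import Pool.Agent.Lib.MP_688fd0_co.SQ2.H98.Gad

/-!
GADG, second part: gadgets between two sheets.
-/

set_option autoImplicit false

namespace Pool.Agent.Lib.MP_688fd0_co.SQ2

open Pool.Agent.Lib.MP_688fd0_co.OSF Finset

universe u v w

theorem far_iff {Q : Type u} [Group Q] {D : Subgroup Q} [hD : D.Normal] (x g s : Q) :
    (x * g)⁻¹ * s ∈ D ↔ x⁻¹ * s * g⁻¹ ∈ D := by
  constructor
  · intro h
    have := hD.conj_mem _ h g
    have e : g * ((x * g)⁻¹ * s) * g⁻¹ = x⁻¹ * s * g⁻¹ := by group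
    rwa [e] at this
  · intro h
    have := hD.conj_mem _ h g⁻¹
    have e : g⁻¹ * (x⁻¹ * s * g⁻¹) * g⁻¹⁻¹ = (x * g)⁻¹ * s := by group
    rwa [e] at this

variable {Q : Type u} [Group Q] [DecidableEq Q] {B : Lb.{u, v} Q} {a : B.L} {D : Subgroup Q} [hD : D.Normal]
  (hα : ∀ q : Q, B.q a * q * (B.q a)⁻¹ * q⁻¹ ∈ D) {L : Finset Q} (hL : ∀ y ∈ L, ∀ d ∈ D, y * d ∈ L)

include hα hL in
/-- Gadget for a label outside `D` with both sheets in the frontier. -/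
theorem natL (x : Q) (hx : x ∈ L) (g : B.L) (hgD : B.q g ∉ D) (hxg : x * B.q g ∈ L) :
    ∃ (M : ℕ) (T : TW B) (v' : Q), M ≤ L.card.factorial ∧
      GadF a D L g (lg (B.q a) 1 (B.q g * B.q a * (B.q g)⁻¹) 1) x (x * B.q g) x v' T M 0 0 0 0 := by
  classical
  set Γ := lg (B.q a) 1 (B.q g * B.q a * (B.q g)⁻¹) 1 with hΓ
  have hΓa : inG Γ (B.q a) 1 := lg_left _ _ _ _
  have hΓc : inG Γ (B.q g * B.q a * (B.q g)⁻¹) 1 := lg_right _ _ _ _
  set φ : Q → Q := fun y => if x⁻¹ * y ∈ D then y * B.q g else if x⁻¹ * y * (B.q g)⁻¹ ∈ D then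
    y * (B.q g)⁻¹ else y with hφ
  have ex : ∀ y, x⁻¹ * y ∈ D → x⁻¹ * y * (B.q g)⁻¹ ∉ D := by
    intro y h h'
    apply hgD
    have := D.mul_mem (D.inv_mem h') h
    have e : (x⁻¹ * y * (B.q g)⁻¹)⁻¹ * (x⁻¹ * y) = B.q g := by group
    rwa [e] at this
  have p1 : ∀ y, x⁻¹ * y ∈ D → φ y = y * B.q g := fun y h => if_pos h
  have p2 : ∀ y, x⁻¹ * y * (B.q g)⁻¹ ∈ D → φ y = y * (B.q g)⁻¹ := fun y h => by
    have h' : x⁻¹ * y ∉ D := fun h2 => ex y h2 h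
    show (if _ then _ else _) = _
    rw [if_neg h', if_pos h]
  have p3 : ∀ y, x⁻¹ * y ∉ D → x⁻¹ * y * (B.q g)⁻¹ ∉ D → φ y = y := fun y h h' => by
    show (if _ then _ else _) = _
    rw [if_neg h, if_neg h']
  have n1 : ∀ y, x⁻¹ * y ∈ D → x⁻¹ * (y * B.q g) * (B.q g)⁻¹ ∈ D := fun y h => by
    have : x⁻¹ * (y * B.q g) * (B.q g)⁻¹ = x⁻¹ * y := by group
    rwa [this]
  have n2 : ∀ y, x⁻¹ * y * (B.q g)⁻¹ ∈ D → x⁻¹ * (y * (B.q g)⁻¹) ∈ D := fun y h => by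
    rwa [← mul_assoc]
  have inv : ∀ y, φ (φ y) = y := by
    intro y
    by_cases h : x⁻¹ * y ∈ D
    · rw [p1 y h, p2 _ (n1 y h)]; group
    · by_cases h' : x⁻¹ * y * (B.q g)⁻¹ ∈ D
      · rw [p2 y h', p1 _ (n2 y h')]; group
      · rw [p3 y h h', p3 y h h']
  have m1 : ∀ y ∈ L, φ y ∈ L := by
    intro y hy
    by_cases h : x⁻¹ * y ∈ D
    · rw [p1 y h]
      have h1 := hD.conj_mem _ h (B.q g)⁻¹
      have h2 := hL _ hxg _ h1
      have e : x * B.q g * ((B.q g)⁻¹ * (x⁻¹ * y) * (B.q g)⁻¹⁻¹) = y * B.q g := by group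
      rwa [e] at h2
    · by_cases h' : x⁻¹ * y * (B.q g)⁻¹ ∈ D
      · rw [p2 y h']
        have h2 := hL _ hx _ h'
        have e : x * (x⁻¹ * y * (B.q g)⁻¹) = y * (B.q g)⁻¹ := by group
        rwa [e] at h2
      · rw [p3 y h h']; exact hy
  have m2 : ∀ y ∈ L, ∀ y' ∈ L, φ y = φ y' → y = y' := by
    intro y _ y' _ he
    rw [← inv y, he, inv y']
  set P := permOf φ m1 m2 with hP
  set Dp : ℕ → L → Prop := fun l y => (x⁻¹ * (y : Q) ∈ D ∧ inG Γ (x⁻¹ * (B.q a ^ l * (y : Q))) l) ∨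
    (x⁻¹ * (y : Q) * (B.q g)⁻¹ ∈ D ∧ inG Γ (x⁻¹ * (B.q a ^ l * (y : Q)) * (B.q g)⁻¹) l) with hDp
  have hGa : ∀ (l : ℕ) (y : L), x⁻¹ * (B.q a ^ (l + 1) * (pA hα hL y : Q)) =
      x⁻¹ * (B.q a ^ l * (y : Q)) * B.q a := by
    intro l y
    rw [pA_apply, pow_succ]; group
  have hGb : ∀ (l : ℕ) (y : L), x⁻¹ * (B.q a ^ (l + 1) * (pA hα hL y : Q)) * (B.q g)⁻¹ =
      x⁻¹ * (B.q a ^ l * (y : Q)) * (B.q g)⁻¹ * (B.q g * B.q a * (B.q g)⁻¹) := by
    intro l y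
    rw [pA_apply, pow_succ]; group
  have hPn : ∀ y : L, x⁻¹ * (y : Q) ∈ D → (P y : Q) = (y : Q) * B.q g := fun y h => p1 _ h
  have hPf : ∀ y : L, x⁻¹ * (y : Q) * (B.q g)⁻¹ ∈ D → (P y : Q) = (y : Q) * (B.q g)⁻¹ :=
    fun y h => p2 _ h
  set ℓ : L → B.L := fun y => if x⁻¹ * (y : Q) ∈ D then g else B.inv g with hℓ
  have hln : ∀ y : L, x⁻¹ * (y : Q) ∈ D → ℓ y = g := fun y h => if_pos h
  have hlf : ∀ y : L, x⁻¹ * (y : Q) * (B.q g)⁻¹ ∈ D → ℓ y = B.inv g := fun y h =>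
    if_neg (fun h2 => ex _ h2 h)
  obtain ⟨m, y, X, a1, a2, a3, a4, a5, a6, a7, a8, a9, a10, a11, a12, a13⟩ :=
    TG0 (z := B.q a) (a := a) (A := pA hα hL) (P := P) (ℓ := ℓ) (D := Dp)
      (pA_mul hα hL)
      (fun l y hy => by
        rcases hy with hy | hy
        · rw [hPn y hy.1, hln y hy.1]
        · rw [hPf y hy.1, hlf y hy.1, B.q_inv])
      (fun l y hy => by
        rcases hy with hy | hy
        · left
          refine ⟨?_, ?_⟩
          · rw [pA_apply, conjD1 hα]; exact hy.1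
          · rw [hGa, Nat.cast_succ]
            exact inG_mul hy.2 hΓa
        · right
          refine ⟨?_, ?_⟩
          · rw [pA_apply, conjD2 hα]; exact hy.1
          · rw [hGb, Nat.cast_succ]
            exact inG_mul hy.2 hΓc)
      (fun l y hy => by
        rcases hy with hy | hy
        · right
          rw [hPn y hy.1]
          refine ⟨n1 _ hy.1, ?_⟩
          have : x⁻¹ * (B.q a ^ l * ((y : Q) * B.q g)) * (B.q g)⁻¹ = x⁻¹ * (B.q a ^ l * (y : Q)) := by group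
          rw [this]; exact hy.2
        · left
          rw [hPf y hy.1]
          refine ⟨n2 _ hy.1, ?_⟩
          have : x⁻¹ * (B.q a ^ l * ((y : Q) * (B.q g)⁻¹)) = x⁻¹ * (B.q a ^ l * (y : Q)) * (B.q g)⁻¹ := by
            group
          rw [this]; exact hy.2)
      (fun l y hy => by
        rcases hy with hy | hy
        · left
          refine ⟨?_, ?_⟩
          · have h := hy.1
            rwa [pA_apply, conjD1 hα] at h
          · have h := hy.2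
            rw [hGa, Nat.cast_succ] at h
            exact (inG_mul_right hΓa).1 h
        · right
          refine ⟨?_, ?_⟩
          · have h := hy.1
            rwa [pA_apply, conjD2 hα] at h
          · have h := hy.2
            rw [hGb, Nat.cast_succ] at h
            exact (inG_mul_right hΓc).1 h)
      ⟨x, hx⟩ (Or.inl ⟨by simp, by simpa using inG_one⟩)
  have hrect : Rect a X m := by
    refine ⟨?_, ?_⟩
    · rw [a4, a5, rt_L hα hL]
    · rw [a4, a12, lev_L hα hL rfl]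
  have hu0 : X.u₀ = x := a6
  have hu1 : X.u₁ = x * B.q g := by rw [a7]; exact p1 x (by simp)
  have hcup : X.cup = [g] := by rw [a8, hln ⟨x, hx⟩ (by simp)]
  obtain ⟨t1, t2⟩ := tk_tok hα hL a13 (Cmp D Γ x (x * B.q g) x (B.q g) 0 0)
    (fun s => by
      show ((x⁻¹ * (s : Q) ∈ D ∧ inG Γ (x⁻¹ * (B.q a ^ 0 * (s : Q))) 0) ∨
        (x⁻¹ * (s : Q) * (B.q g)⁻¹ ∈ D ∧ inG Γ (x⁻¹ * (B.q a ^ 0 * (s : Q)) * (B.q g)⁻¹) 0)) ↔ _
      rw [pow_zero, one_mul]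
      unfold Cmp
      rw [far_iff, Nat.cast_zero, neg_zero])
    (fun y hy => by
      rcases hy with ⟨h1, h2⟩ | ⟨h1, h2⟩
      · left
        refine ⟨?_, ?_⟩
        · have := (conjD3 hα m x⁻¹ (y : Q) 1).2 (by rw [mul_one]; exact h1)
          rwa [mul_one] at this
        · rw [← mul_assoc x⁻¹]
          exact inG_lvl (inG_mul h2 (inG_inv (inG_pow1 hΓa m))) (add_neg_cancel _)
      · right
        refine ⟨?_, ?_⟩
        · rw [far_iff]
          exact (conjD3 hα m x⁻¹ (y : Q) (B.q g)⁻¹).2 h1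
        · have e : x⁻¹ * (B.q a ^ m * (y : Q) * (B.q a ^ m)⁻¹) * (B.q g)⁻¹ =
              x⁻¹ * (B.q a ^ m * (y : Q)) * (B.q g)⁻¹ * ((B.q g * B.q a * (B.q g)⁻¹) ^ m)⁻¹ := by
            rw [conj_pow]
            group
          rw [e]
          exact inG_lvl (inG_mul h2 (inG_inv (inG_pow1 hΓc m))) (add_neg_cancel _))
  rw [hu0, hu1] at t1 t2
  rcases a3 with h3 | h3
  · refine ⟨m, X, X.w₀, a2, ⟨hrect, by omega, a4, hu0, hu1, ?_, ?_, hcup, ?_, ?_, ?_, ?_, rfl, ?_, ?_, t1,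
      t2⟩⟩
    · rw [pow_zero, mul_one]
    · rw [pow_zero, mul_one]
    · rw [pow_zero, mul_one]
    · rw [pow_zero, mul_one, a10, a9, hPn y h3.1, mul_assoc]
    · rw [a11, hln y h3.1]; rfl
    · omega
    · rw [a9, Nat.sub_zero, Nat.sub_zero]; exact h3.2
    · rw [a9, Nat.sub_zero, Nat.sub_zero]
      have := (conjD3 hα m x⁻¹ (y : Q) 1).2 (by rw [mul_one]; exact h3.1)
      rwa [mul_one, ← mul_assoc x⁻¹] at this
  · have hw1 : X.w₁ = B.q a ^ m * (y : Q) * (B.q g)⁻¹ := by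
      rw [a10, hPf y h3.1, mul_assoc]
    have hf : B.fin X.flipCap.w₀ [g] = X.flipCap.w₁ := by
      show X.w₁ * B.q g = X.w₀
      rw [hw1, a9, inv_mul_cancel_right]
    refine ⟨m, X.flipCap.setCap [g] hf, X.w₁, a2,
      ⟨?_, by omega, a4, hu0, hu1, ?_, ?_, hcup, ?_, ?_, rfl, ?_, rfl, ?_, ?_, t1, t2⟩⟩
    · refine ⟨hrect.top, ?_⟩
      rw [TW.setCap_R, TW.flipCap_R]
      · exact hrect.reg
      · show B.verts X.w₁ [g] = B.verts X.w₁ (B.rev X.cap)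
        rw [a11, hlf y h3.1]
        show [X.w₁, X.w₁ * B.q g] = [X.w₁, X.w₁ * B.q (B.inv (B.inv g))]
        rw [q_inv_inv]
    · rw [pow_zero, mul_one]
    · rw [pow_zero, mul_one]
    · rw [pow_zero, mul_one]; rfl
    · rw [pow_zero, mul_one]
      exact hf.symm
    · omega
    · have : x⁻¹ * X.w₁ = x⁻¹ * (B.q a ^ m * (y : Q)) * (B.q g)⁻¹ := by
        rw [hw1]; group
      rw [this, Nat.sub_zero, Nat.sub_zero]
      exact h3.2
    · rw [Nat.sub_zero, Nat.sub_zero, hw1]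
      have e1 : x⁻¹ * (B.q a ^ m * (y : Q) * (B.q g)⁻¹) * (B.q a ^ m)⁻¹ =
          x⁻¹ * (B.q a ^ m * ((y : Q) * (B.q g)⁻¹) * (B.q a ^ m)⁻¹) * 1 := by group
      rw [e1, conjD3 hα, mul_one, ← mul_assoc]
      exact h3.1

end Pool.Agent.Lib.MP_688fd0_co.SQ2
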