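import Pool.Agent.Lib.MP_688fd0_co.SQ2.H98.BG
import Pool.Agent.Lib.MP_688fd0_co.SQ2.V.GadDefs

/-!
GADN: existence of the base gadgets.
-/

set_option autoImplicit false

namespace Pool.Agent.Lib.MP_688fd0_co.SQ2

open Pool.Agent.Lib.MP_688fd0_co.OSF

section

variable {Q : Type} [Group Q] {D : Subgroup Q} [hD : D.Normal] {A : Q}

theorem inv_mul_mem_iff (x y : Q) : x⁻¹ * y ∈ D ↔ y * x⁻¹ ∈ D := by
  constructor
  · intro h
    have := hD.conj_mem _ h x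
    have e : x * (x⁻¹ * y) * x⁻¹ = y * x⁻¹ := by group
    rwa [e] at this
  · intro h
    have := hD.conj_mem _ h x⁻¹
    have e : x⁻¹ * (y * x⁻¹) * x⁻¹⁻¹ = x⁻¹ * y := by group
    rwa [e] at this

/-- Symmetries do not change the sheet. -/
theorem sy_sheet {F : Finset Q} {e : ℕ} (h : FrD D A F e) (k : Sy h.toFrt) (s : F) :
    (s : Q)⁻¹ * ((k • s : F) : Q) ∈ D := by
  obtain ⟨t, d, _, hd, hs⟩ := k.2
  have h1 := hs s
  have h2 : ((k • s : F) : Q) = d * A ^ t * (s : Q) * (A ^ t)⁻¹ := by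
    rw [h1, mul_inv_cancel_right]; rfl
  rw [inv_mul_mem_iff, h2]
  have h3 := D.mul_mem hd (h.com_pow t (s : Q))
  have e1 : d * (A ^ t * (s : Q) * (A ^ t)⁻¹ * (s : Q)⁻¹) = d * A ^ t * (s : Q) * (A ^ t)⁻¹ * (s : Q)⁻¹ := by
    group
  rwa [e1] at h3

end

variable {Q : Type} [Group Q] [DecidableEq Q] {B : Lb.{0, 0} Q} {a : B.L} {D : Subgroup Q} {F : Finset Q} {e : ℕ}

/-- Two sheets: the local group. -/
theorem GadF.two (h : FrD D (B.q a) F e) {b : B.L} {s₀ s₁ v v' : Q} {T : TW B} {M p p' q q' : ℕ}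
    (G : GadF a D F b (lg (B.q a) 1 (B.q b * B.q a * (B.q b)⁻¹) 1) s₀ s₁ v v' T M p p' q q') (h₀ : s₀ ∈ F)
    (h₁ : s₁ ∈ F) :
    ∃ G' : BGad h.toFrt, G'.x = ⟨s₀, h₀⟩ ∧ G'.y = ⟨s₁, h₁⟩ ∧ G'.H = M ∧
      GOK h G' b p p' (Subgroup.closure {h.cj (G'.x : Q), h.cj (G'.y : Q)}) := by
  obtain ⟨G', g1, g2, g3, _, g5⟩ := G.gok h h₀ h₁ (Subgroup.closure {h.cj s₀, h.cj s₁}) (lg_le
    (lsub_cj h (w := s₀) (Subgroup.subset_closure (by simp)) (by rw [G.e₀]; group))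
    (lsub_cj h (w := s₁) (Subgroup.subset_closure (by simp)) (by
      have e1 : v * (B.q b * B.q a * (B.q b)⁻¹) * v⁻¹ = v * B.q b * B.q a * (v * B.q b)⁻¹ := by group
      rw [e1, G.e₁]; group)))
  refine ⟨G', g1, g2, g3, ?_⟩
  rw [g1, g2]
  exact g5

/-- One sheet: the local group. -/
theorem GadF.one [hD : D.Normal] (h : FrD D (B.q a) F e) {b : B.L} {j : ℤ} {s₀ s₁ v v' : Q} {T : TW B}
    {M p p' q q' : ℕ} (G : GadF a D F b (lg (B.q a) 1 (B.q b) j) s₀ s₁ v v' T M p p' q q')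
    (hj : (p' : ℤ) - p = j) (hb : B.q b * (B.q a ^ j)⁻¹ ∈ D) (h₀ : s₀ ∈ F) (h₁ : s₁ ∈ F) :
    ∃ (G' : BGad h.toFrt) (η : Sy h.toFrt), G'.x = ⟨s₀, h₀⟩ ∧ G'.y = ⟨s₁, h₁⟩ ∧ G'.H = M ∧
      η • G'.x = G'.y ∧ lv η = (p' : ZMod e) - p ∧
      GOK h G' b p p' (Subgroup.closure {h.cj (G'.x : Q), η}) := by
  have hw : v * B.q b * v⁻¹ * (B.q a ^ j)⁻¹ ∈ D := by
    rw [mem_iff_mk (D := D)] at hb ⊢
    simp only [map_mul, map_inv, map_zpow] at hb ⊢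
    have h1 := ((mk_comm_zpow h.com j v).inv_right.inv_left).eq
    rw [mul_assoc (QuotientGroup.mk' D v * _), ← h1, mul_assoc (QuotientGroup.mk' D v), ← mul_assoc _ _ (QuotientGroup.mk' D v)⁻¹,
      hb]
    group
  obtain ⟨η, hη, hact⟩ := h.exists_sy _ j hw
  obtain ⟨G', g1, g2, g3, _, g5⟩ := G.gok h h₀ h₁ (Subgroup.closure {h.cj s₀, η}) (lg_le
    (lsub_cj h (w := s₀) (Subgroup.subset_closure (by simp)) (by rw [G.e₀]; group))
    ((lsub_iff h _ _ _ _).2 ⟨η, Subgroup.subset_closure (by simp), hη, hact⟩))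
  refine ⟨G', η, g1, g2, g3, ?_, ?_, ?_⟩
  · rw [g1, g2]
    refine Subtype.ext ?_
    have h2 := hact ⟨s₀, h₀⟩
    have h3 : v * B.q b * v⁻¹ * s₀ = s₁ * B.q a ^ j := by
      rw [G.e₁, ← hj, G.e₀, zpow_sub, zpow_natCast, zpow_natCast]; group
    have h4 := h3.symm.trans h2
    exact (mul_right_cancel h4).symm
  · rw [hη, ← hj]; push_cast; ring
  · rw [g1]
    exact g5

theorem gadN2 : GadN2S := by
  intro Q _ _ B a D z k hH W c F hFr hW h b hba _ hc s₀ o ho hs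
  have : D.Normal := hH.nrm
  have hoW : |o| ≤ (W : ℤ) := by
    have : c ≤ W := by omega
    have h2 : (c : ℤ) ≤ W := by exact_mod_cast this
    exact ho.trans h2
  have hnat : o.natAbs ≤ c := by
    have := ho
    rw [Int.abs_eq_natAbs] at this
    exact_mod_cast this
  have hD2 : B.q b * B.q a ^ (-o) ∉ D := by
    intro hh
    apply hc o ho
    rw [inv_mul_mem_iff, ← zpow_neg]
    exact hh
  obtain ⟨M, T, v', h1, G⟩ := gadOff h.com hFr.inv (s₀ : Q) s₀.2 b o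
    (fun x hx y hy e => hFr.disj x hx o hoW (e ▸ hy)) (by rw [zpow_neg]; exact hs) hD2
  have hs₁ : (s₀ : Q) * B.q a ^ o.natAbs * B.q b * (B.q a ^ ((o.natAbs : ℤ) + o).toNat)⁻¹ ∈ F := by
    rw [← G.u₁, ← G.L₀]; exact T.hu₁
  obtain ⟨G', g1, g2, g3, g4⟩ := G.two h s₀.2 hs₁
  refine ⟨G', _, _, g1, ?_, ?_, ?_, g4⟩
  · rw [g3]
    unfold hgt
    have := h1
    omega
  · omega
  · intro k' hk
    have h5 := sy_sheet h k' G'.x
    rw [hk, g2, g1] at h5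
    apply hD2
    have h6 := ‹D.Normal›.conj_mem _ h5 (B.q a ^ o.natAbs)⁻¹
    have e1 : (((o.natAbs : ℤ) + o).toNat : ℤ) = o.natAbs + o := by omega
    have e2 : (B.q a ^ o.natAbs)⁻¹ * ((s₀ : Q)⁻¹ * ((s₀ : Q) * B.q a ^ o.natAbs * B.q b *
        (B.q a ^ ((o.natAbs : ℤ) + o).toNat)⁻¹)) * (B.q a ^ o.natAbs)⁻¹⁻¹ = B.q b * B.q a ^ (-o) := by
      rw [← zpow_natCast (B.q a) (((o.natAbs : ℤ) + o).toNat), e1, ← zpow_natCast (B.q a) o.natAbs]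
      group
    rw [e2] at h6
    exact h6

theorem gadN1 : GadN1S := by
  intro Q _ _ B a D z k hH W c F hFr hW h b hba j hj hb s₀
  have : D.Normal := hH.nrm
  have hb' : B.q b * (B.q a ^ j)⁻¹ ∈ D := (inv_mul_mem_iff _ _).1 hb
  have hne : B.q b ≠ B.q a := fun e => hba (by rw [e])
  have hne' : (B.q b)⁻¹ ≠ B.q a := fun e => hba (by rw [← e]; group)
  have hH1 : ∀ M : ℕ, M ≤ 2 * F.card.factorial → M ≤ hgt F.card c := fun M hM => by unfold hgt; omega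
  have hs1 : ∀ {v v' s₁ : Q} {T : TW B} {M p p' q q' : ℕ},
      GadF a D F b (lg (B.q a) 1 (B.q b) j) (s₀ : Q) s₁ v v' T M p p' q q' → s₁ ∈ F := by
    intro v v' s₁ T M p p' q q' G
    rw [← G.u₁, ← G.L₀]; exact T.hu₁
  have hcases : j = 0 ∨ j = 1 ∨ j = -1 := by
    rw [abs_le] at hj
    omega
  rcases hcases with rfl | rfl | rfl
  · rw [zpow_zero, inv_one, one_mul] at hb
    obtain ⟨M, T, v', h1, G⟩ := nat0 h.com hFr.inv (s₀ : Q) s₀.2 b hb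
    obtain ⟨G', η, g1, _, g3, g4, g5, g6⟩ := G.one h (by norm_num) hb' s₀.2 (hs1 G)
    exact ⟨G', 0, 0, η, g1, by rw [g3]; exact hH1 M (by omega), by norm_num, g4, g5, g6⟩
  · rw [zpow_one] at hb
    obtain ⟨M, T, s₁, v', h1, G⟩ := nat1 h.com hFr.inv (s₀ : Q) s₀.2 b hb hne
    obtain ⟨G', η, g1, _, g3, g4, g5, g6⟩ := G.one h (by norm_num) hb' s₀.2 (hs1 G)
    exact ⟨G', 0, 1, η, g1, by rw [g3]; exact hH1 M h1, by norm_num, g4, g5, g6⟩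
  · rw [zpow_neg_one, inv_inv] at hb
    obtain ⟨M, T, v', h1, G⟩ := nat2 h.com hFr.inv (s₀ : Q) s₀.2 b hb hne'
    obtain ⟨G', η, g1, _, g3, g4, g5, g6⟩ := G.one h (by norm_num) hb' s₀.2 (hs1 G)
    exact ⟨G', 1, 0, η, g1, by rw [g3]; exact hH1 M h1, by norm_num, g4, g5, g6⟩

end Pool.Agent.Lib.MP_688fd0_co.SQ2
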