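import Pool.Agent.Lib.MP_688fd0_co.SQ2.H98.GadL

/-!
GADG: gadgets for all labels, with offsets.
-/

set_option autoImplicit false

namespace Pool.Agent.Lib.MP_688fd0_co.SQ2

open Pool.Agent.Lib.MP_688fd0_co.OSF Finset

universe u v w

variable {Q : Type u} [Group Q] [DecidableEq Q] {B : Lb.{u, v} Q} {a : B.L} {D : Subgroup Q} [hD : D.Normal]
  (hα : ∀ q : Q, B.q a * q * (B.q a)⁻¹ * q⁻¹ ∈ D) {F : Finset Q} (hF : ∀ y ∈ F, ∀ d ∈ D, y * d ∈ F)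

omit [DecidableEq Q] in
theorem reps_add (a : B.L) (m n : ℕ) : reps a m ++ reps a n = reps a (m + n) :=
  List.replicate_append_replicate

include hα hF in
/-- Gadget between two sheets at distance `j`. -/
theorem gadOff (s₀ : Q) (hs₀ : s₀ ∈ F) (g : B.L) (j : ℤ)
    (hj : ∀ x ∈ F, ∀ y ∈ F, y = x * B.q a ^ j → j = 0)
    (hg : s₀ * B.q g * B.q a ^ (-j) ∈ F) (hgD : B.q g * B.q a ^ (-j) ∉ D) :
    ∃ (M : ℕ) (T : TW B) (v' : Q), M ≤ F.card.factorial + 2 * j.natAbs ∧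
      GadF a D F g (lg (B.q a) 1 (B.q g * B.q a * (B.q g)⁻¹) 1) s₀
        (s₀ * B.q a ^ j.natAbs * B.q g * (B.q a ^ (j.natAbs + j).toNat)⁻¹) (s₀ * B.q a ^ j.natAbs) v' T M
        j.natAbs (j.natAbs + j).toNat j.natAbs (j.natAbs - j).toNat := by
  classical
  set α := B.q a with hαd
  set k := j.natAbs with hk
  set k' := ((k : ℤ) + j).toNat with hk'
  set q' := ((k : ℤ) - j).toNat with hq'
  have ek' : (k' : ℤ) = k + j := by omega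
  have eq' : (q' : ℤ) = k - j := by omega
  have esum : k' + q' = 2 * k := by omega
  set v := s₀ * α ^ k with hv
  set s₁ := v * B.q g * (α ^ k')⁻¹ with hs₁
  have hcomm : ∀ (n : ℤ) (q : Q), QuotientGroup.mk' D α ^ n * QuotientGroup.mk' D q =
      QuotientGroup.mk' D q * QuotientGroup.mk' D α ^ n := fun n q => (mk_comm_zpow hα n q).eq
  -- the far sheet
  have hs₁g : (s₀ * B.q g * α ^ (-j))⁻¹ * s₁ ∈ D := by
    rw [mem_iff_mk (D := D), hs₁, hv]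
    simp only [map_mul, map_inv, map_zpow, map_pow]
    rw [← zpow_natCast, ← zpow_natCast, ek']
    have e1 := hcomm (k : ℤ) (B.q g)
    rw [mul_assoc (QuotientGroup.mk' D s₀) (QuotientGroup.mk' D α ^ (k : ℤ)), e1]
    group
  have hs₁F : s₁ ∈ F := by
    have := hF _ hg _ hs₁g
    rwa [mul_inv_cancel_left] at this
  have hgD' : B.q g ∉ D := by
    intro h
    have h1 : s₀ * α ^ (-j) ∈ F := by
      have h2 := hF _ hg _ (hD.conj_mem _ (D.inv_mem h) (α ^ j))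
      have e : s₀ * B.q g * α ^ (-j) * (α ^ j * (B.q g)⁻¹ * (α ^ j)⁻¹) = s₀ * α ^ (-j) := by group
      rwa [e] at h2
    have h3 := hj _ h1 _ hs₀ (by group)
    apply hgD
    rw [h3, neg_zero, zpow_zero, mul_one]
    exact h
  have hfar : s₁⁻¹ * s₀ ∉ D := by
    intro h
    apply hgD
    have h3 := D.inv_mem hs₁g
    have h4 := D.mul_mem (D.inv_mem h) h3
    have e5 : (s₁⁻¹ * s₀)⁻¹ * ((s₀ * B.q g * α ^ (-j))⁻¹ * s₁)⁻¹ = B.q g * α ^ (-j) := by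
      group
    rwa [e5] at h4
  -- the heights
  set σ : Q → ℕ := fun y => if s₁⁻¹ * y ∈ D then k' else k with hσ
  have σf : ∀ y, s₁⁻¹ * y ∈ D → σ y = k' := fun y h => if_pos h
  have σn : ∀ y, s₁⁻¹ * y ∉ D → σ y = k := fun y h => if_neg h
  have σD : ∀ y, ∀ d ∈ D, σ (y * d) = σ y := by
    intro y d hd
    by_cases h : s₁⁻¹ * y ∈ D
    · rw [σf y h, σf]
      rw [← mul_assoc]; exact D.mul_mem h hd
    · rw [σn y h, σn]
      rw [← mul_assoc]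
      exact fun h2 => h ((D.mul_mem_cancel_right hd).1 h2)
  have σ0 : σ s₀ = k := σn _ hfar
  have σ1 : σ s₁ = k' := σf _ (by simp)
  have hjk : ∀ y ∈ F, ∀ y' ∈ F, y * α ^ k' = y' * α ^ k → k = k' ∧ y = y' := by
    intro y hy y' hy' h
    have e : y' = y * α ^ j := by
      have : y' = y * α ^ k' * (α ^ k)⁻¹ := by rw [h]; group
      rw [this, ← zpow_natCast, ← zpow_natCast, ek']
      group
    have h0 := hj _ hy _ hy' e
    have h1 : k = k' := by omega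
    refine ⟨h1, ?_⟩
    rw [← h1] at h
    exact mul_right_cancel h
  have hinj : ∀ y ∈ F, ∀ y' ∈ F, y * α ^ σ y = y' * α ^ σ y' → y = y' := by
    intro y hy y' hy' h
    by_cases c : s₁⁻¹ * y ∈ D <;> by_cases c' : s₁⁻¹ * y' ∈ D
    · rw [σf y c, σf y' c'] at h; exact mul_right_cancel h
    · rw [σf y c, σn y' c'] at h; exact (hjk y hy y' hy' h).2
    · rw [σn y c, σf y' c'] at h; exact (hjk y' hy' y hy h.symm).2.symm
    · rw [σn y c, σn y' c'] at h; exact mul_right_cancel h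
  set L := F.image (fun y => y * α ^ σ y) with hLd
  have hmem : ∀ y ∈ F, y * α ^ σ y ∈ L := fun y hy => Finset.mem_image_of_mem _ hy
  have hex : ∀ x ∈ L, ∃ y ∈ F, y * α ^ σ y = x := fun x hx => Finset.mem_image.1 hx
  have hcard : L.card ≤ F.card := Finset.card_image_le
  have hL : ∀ y ∈ L, ∀ d ∈ D, y * d ∈ L := by
    intro y hy d hd
    obtain ⟨y', h1, rfl⟩ := hex y hy
    have hd' : α ^ σ y' * d * (α ^ σ y')⁻¹ ∈ D := hD.conj_mem _ hd _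
    have h2 := hmem _ (hF y' h1 _ hd')
    rw [σD _ _ hd'] at h2
    have e : y' * (α ^ σ y' * d * (α ^ σ y')⁻¹) * α ^ σ y' = y' * α ^ σ y' * d := by group
    rwa [e] at h2
  have hvL : v ∈ L := by
    have := hmem _ hs₀
    rwa [σ0] at this
  have hs₁v : s₁ * α ^ k' = v * B.q g := by rw [hs₁, inv_mul_cancel_right]
  have hvgL : v * B.q g ∈ L := by
    have := hmem _ hs₁F
    rwa [σ1, hs₁v] at this
  obtain ⟨m, X, v', b1, G⟩ := natL hα hL v hvL g hgD' hvgL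
  set Γ := lg α 1 (B.q g * α * (B.q g)⁻¹) 1 with hΓ
  have hΓa : inG Γ α 1 := lg_left _ _ _ _
  have hΓc : inG Γ (B.q g * α * (B.q g)⁻¹) 1 := lg_right _ _ _ _
  have hlvl : v⁻¹ * v' * (α ^ m)⁻¹ ∈ D := by
    have := G.lvl
    rwa [Nat.sub_zero, Nat.sub_zero] at this
  -- the component
  have hcmp : ∀ s ∈ F, Cmp D Γ s₀ s₁ v (B.q g) k k' s ↔
      Cmp D Γ v (v * B.q g) v (B.q g) 0 0 (s * α ^ σ s) := by
    intro s hs
    have n1 : s₀⁻¹ * s ∈ D → s₁⁻¹ * s ∉ D := by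
      intro h h2
      apply hfar
      have := D.mul_mem h2 (D.inv_mem h)
      have e : s₁⁻¹ * s * (s₀⁻¹ * s)⁻¹ = s₁⁻¹ * s₀ := by group
      rwa [e] at this
    have c1 : v⁻¹ * (s * α ^ k) ∈ D ↔ s₀⁻¹ * s ∈ D := by
      have e : v⁻¹ * (s * α ^ k) = (α ^ k)⁻¹ * (s₀⁻¹ * s) * (α ^ k)⁻¹⁻¹ := by rw [hv]; group
      rw [e]
      exact ⟨fun h => by
        have := hD.conj_mem _ h (α ^ k)
        have e2 : α ^ k * ((α ^ k)⁻¹ * (s₀⁻¹ * s) * (α ^ k)⁻¹⁻¹) * (α ^ k)⁻¹ = s₀⁻¹ * s := by group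
        rwa [e2] at this, fun h => hD.conj_mem _ h _⟩
    have c2 : inG Γ (v⁻¹ * (s * α ^ k)) (-((0 : ℕ) : ℤ)) ↔ inG Γ (v⁻¹ * s) (-(k : ℤ)) := by
      rw [← mul_assoc, ← inG_mul_right (x := v⁻¹ * s) (m := -(k : ℤ)) (inG_pow1 hΓa k), neg_add_cancel,
        Nat.cast_zero, neg_zero]
    have d1 : (v * B.q g)⁻¹ * (s * α ^ k') ∈ D ↔ s₁⁻¹ * s ∈ D := by
      have e : (v * B.q g)⁻¹ * (s * α ^ k') = (α ^ k')⁻¹ * (s₁⁻¹ * s) * (α ^ k')⁻¹⁻¹ := by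
        rw [← hs₁v]; group
      rw [e]
      exact ⟨fun h => by
        have := hD.conj_mem _ h (α ^ k')
        have e2 : α ^ k' * ((α ^ k')⁻¹ * (s₁⁻¹ * s) * (α ^ k')⁻¹⁻¹) * (α ^ k')⁻¹ = s₁⁻¹ * s := by group
        rwa [e2] at this, fun h => hD.conj_mem _ h _⟩
    have d2 : inG Γ (v⁻¹ * (s * α ^ k') * (B.q g)⁻¹) (-((0 : ℕ) : ℤ)) ↔
        inG Γ (v⁻¹ * s * (B.q g)⁻¹) (-(k' : ℤ)) := by
      have e : v⁻¹ * (s * α ^ k') * (B.q g)⁻¹ =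
          v⁻¹ * s * (B.q g)⁻¹ * (B.q g * α * (B.q g)⁻¹) ^ k' := by
        rw [conj_pow]; group
      rw [e, ← inG_mul_right (x := v⁻¹ * s * (B.q g)⁻¹) (m := -(k' : ℤ)) (inG_pow1 hΓc k'), neg_add_cancel,
        Nat.cast_zero, neg_zero]
    unfold Cmp
    by_cases hsf : s₁⁻¹ * s ∈ D
    · rw [σf s hsf, d1, d2]
      have hn : s₀⁻¹ * s ∉ D := fun h => n1 h hsf
      have hn' : v⁻¹ * (s * α ^ k') ∉ D := by
        intro h
        apply hgD'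
        have := D.mul_mem h (D.inv_mem (d1.2 hsf))
        have e : v⁻¹ * (s * α ^ k') * ((v * B.q g)⁻¹ * (s * α ^ k'))⁻¹ = B.q g := by group
        rwa [e] at this
      constructor
      · rintro (h | h)
        · exact absurd h.1 hn
        · exact Or.inr h
      · rintro (h | h)
        · exact absurd h.1 hn'
        · exact Or.inr h
    · rw [σn s hsf, c1, c2]
      have hn' : (v * B.q g)⁻¹ * (s * α ^ k) ∉ D := by
        intro h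
        have h1 := hF _ hs₁F _ (hD.conj_mem _ h (α ^ k'))
        have e1 : s₁ * (α ^ k' * ((v * B.q g)⁻¹ * (s * α ^ k)) * (α ^ k')⁻¹) = s * α ^ k * (α ^ k')⁻¹ := by
          rw [← hs₁v]; group
        rw [e1] at h1
        obtain ⟨h2, h3⟩ := hjk _ h1 _ hs (by rw [inv_mul_cancel_right])
        apply hsf
        rw [← d1, ← h2]
        exact h
      constructor
      · rintro (h | h)
        · exact Or.inl h
        · exact absurd h.1 hsf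
      · rintro (h | h)
        · exact Or.inl h
        · exact absurd h.1 hn'
  -- the rectangular window
  have hy₀D : s₀⁻¹ * (v' * (α ^ m)⁻¹ * (α ^ k)⁻¹) ∈ D := by
    have := hD.conj_mem _ hlvl (α ^ k)
    have e : α ^ k * (v⁻¹ * v' * (α ^ m)⁻¹) * (α ^ k)⁻¹ = s₀⁻¹ * (v' * (α ^ m)⁻¹ * (α ^ k)⁻¹) := by
      rw [hv]; group
    rwa [e] at this
  have hy₀F : v' * (α ^ m)⁻¹ * (α ^ k)⁻¹ ∈ F := by
    have := hF _ hs₀ _ hy₀D
    rwa [mul_inv_cancel_left] at this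
  have hy₀σ : σ (v' * (α ^ m)⁻¹ * (α ^ k)⁻¹) = k := by
    have := σD s₀ _ hy₀D
    rwa [mul_inv_cancel_left, σ0] at this
  have hy₁D : s₁⁻¹ * (v' * B.q g * (α ^ m)⁻¹ * (α ^ k')⁻¹) ∈ D := by
    have h1 := hD.conj_mem _ (hD.conj_mem _ hlvl (B.q g)⁻¹) (α ^ k')
    have h2 : (B.q g)⁻¹ * (α ^ m * B.q g * (α ^ m)⁻¹) * 1 ∈ D := (conjD3 hα m _ _ _).2 (by simp)
    have h3 := D.mul_mem h1 (hD.conj_mem _ h2 (α ^ k'))
    have e : α ^ k' * ((B.q g)⁻¹ * (v⁻¹ * v' * (α ^ m)⁻¹) * (B.q g)⁻¹⁻¹) * (α ^ k')⁻¹ *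
        (α ^ k' * ((B.q g)⁻¹ * (α ^ m * B.q g * (α ^ m)⁻¹) * 1) * (α ^ k')⁻¹) =
        s₁⁻¹ * (v' * B.q g * (α ^ m)⁻¹ * (α ^ k')⁻¹) := by
      rw [hs₁]; group
    rwa [e] at h3
  have hy₁F : v' * B.q g * (α ^ m)⁻¹ * (α ^ k')⁻¹ ∈ F := by
    have := hF _ hs₁F _ hy₁D
    rwa [mul_inv_cancel_left] at this
  have hy₁σ : σ (v' * B.q g * (α ^ m)⁻¹ * (α ^ k')⁻¹) = k' := σf _ hy₁D
  have hXw₀ : X.w₀ = v' := by rw [G.w₀, pow_zero, mul_one]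
  have hXw₁ : X.w₁ = v' * B.q g := by rw [G.w₁, pow_zero, mul_one]
  have hXL : X.L₀ = L := G.L₀
  obtain ⟨Y, c1, c2, c3, c4, c5, c6, c7, c8, c9⟩ := rect X a m G.rect F σ (m + 2 * k)
    (fun y hy => by rw [hXL]; exact hmem y hy) hinj (fun x hx => hex x (hXL ▸ hx))
    (fun y _ => by
      by_cases h : s₁⁻¹ * y ∈ D
      · rw [σf y h]; omega
      · rw [σn y h]; omega)
    s₀ s₁ (v' * (α ^ m)⁻¹ * (α ^ k)⁻¹) (v' * B.q g * (α ^ m)⁻¹ * (α ^ k')⁻¹) hs₀ hs₁F hy₀F hy₁F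
    (by rw [σ0, G.u₀]) (by rw [σ1, G.u₁]; exact hs₁v)
    (by rw [hy₀σ, hXw₀, ← hαd]; group) (by rw [hy₁σ, hXw₁, ← hαd]; group)
  rw [← hαd] at c5 c6
  have hM : m + 2 * k - m - k = k := by omega
  have hM' : m + 2 * k - m - k' = q' := by omega
  have hpos := G.pos
  refine ⟨m + 2 * k, Y, v', ?_, ⟨c1, by omega, c2, c3, c4, rfl, ?_, ?_, ?_, ?_, ?_, by omega, by omega, ?_, ?_,
    ?_, ?_⟩⟩
  · have := b1.trans (Nat.factorial_le hcard)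
    omega
  · exact hs₁v.symm
  · rw [c7, σ0, σ1, G.cup]
    rfl
  · rw [c5, mul_assoc, mul_assoc]
    congr 1
    rw [← zpow_natCast, ← zpow_natCast, ← zpow_natCast]
    push_cast
    group
  · rw [c6, ← hαd, mul_assoc (v' * B.q g), mul_assoc (v' * B.q g)]
    congr 1
    have e : ((m + 2 * k : ℕ) : ℤ) = m + k' + q' := by omega
    rw [← zpow_natCast, ← zpow_natCast, ← zpow_natCast, ← zpow_natCast, e]
    group
  · rw [c8, hy₀σ, hy₁σ, hM, hM', G.cap]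
    rfl
  · rw [show m + 2 * k - k - k = m by omega]
    exact G.gam
  · rw [show m + 2 * k - k - k = m by omega]
    exact hlvl
  · intro s hs h0 h1 hc
    have hx0 : s * α ^ σ s ≠ v := by
      intro h
      apply h0
      exact hinj _ hs _ hs₀ (by rw [h, σ0])
    have hx1 : s * α ^ σ s ≠ v * B.q g := by
      intro h
      apply h1
      exact hinj _ hs _ hs₁F (by rw [h, σ1, hs₁v])
    obtain ⟨x', e1, e2, e3⟩ := G.tok _ (hmem s hs) hx0 hx1 ((hcmp s hs).1 hc)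
    obtain ⟨s', e4, e5⟩ := hex x' e1
    rw [← e5] at e2 e3
    exact ⟨s', e4, (hcmp s' e4).2 e2, (c9 s hs h0 h1 s' e4 e3).1⟩
  · intro s hs h0 h1 hc
    have hx0 : s * α ^ σ s ≠ v := by
      intro h
      apply h0
      exact hinj _ hs _ hs₀ (by rw [h, σ0])
    have hx1 : s * α ^ σ s ≠ v * B.q g := by
      intro h
      apply h1
      exact hinj _ hs _ hs₁F (by rw [h, σ1, hs₁v])
    obtain ⟨e1, e2⟩ := G.out _ (hmem s hs) hx0 hx1 (fun h => hc ((hcmp s hs).2 h))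
    obtain ⟨e3, e4⟩ := c9 s hs h0 h1 s hs e1
    refine ⟨e3, ?_⟩
    rw [e4, e2, reps_add, reps_add]
    congr 1
    by_cases h : s₁⁻¹ * s ∈ D
    · rw [σf s h]; omega
    · rw [σn s h]; omega

include hα hF in
/-- GADG: for every label `g` and offset `j` such that `s₀ g A^(-j)` belongs to the frontier. -/
theorem gadg (s₀ : Q) (hs₀ : s₀ ∈ F) (g : B.L) (j : ℤ)
    (hj : ∀ x ∈ F, ∀ y ∈ F, y = x * B.q a ^ j → j = 0)
    (hg : s₀ * B.q g * B.q a ^ (-j) ∈ F) (hsink : B.q g * B.q a ^ (-j) ∈ D → j = 0 ∨ j = 1 ∨ j = -1)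
    (hne : B.q g ≠ B.q a) (hne' : (B.q g)⁻¹ ≠ B.q a) :
    ∃ (Γ : Subgroup (Q × Multiplicative ℤ)) (s₁ v v' : Q) (M : ℕ) (T : TW B) (p p' q q' : ℕ),
      M ≤ 2 * F.card.factorial + 2 * j.natAbs ∧ GadF a D F g Γ s₀ s₁ v v' T M p p' q q' ∧
      ((B.q g * B.q a ^ (-j) ∉ D ∧ Γ = lg (B.q a) 1 (B.q g * B.q a * (B.q g)⁻¹) 1 ∧
        p = j.natAbs ∧ p' = (j.natAbs + j).toNat ∧ q = j.natAbs ∧ q' = (j.natAbs - j).toNat) ∨
      (B.q g * B.q a ^ (-j) ∈ D ∧ Γ = lg (B.q a) 1 (B.q g) j ∧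
        ((j = 0 ∧ p = 0 ∧ p' = 0 ∧ q = 0 ∧ q' = 0) ∨ (j = 1 ∧ p = 0 ∧ p' = 1 ∧ q = 1 ∧ q' = 0) ∨
        (j = -1 ∧ p = 1 ∧ p' = 0 ∧ q = 0 ∧ q' = 1)))) := by
  by_cases hgD : B.q g * B.q a ^ (-j) ∈ D
  · rcases hsink hgD with rfl | rfl | rfl
    · rw [neg_zero, zpow_zero, mul_one] at hgD
      obtain ⟨M, T, v', h1, h2⟩ := nat0 hα hF s₀ hs₀ g hgD
      refine ⟨_, _, _, _, M, T, 0, 0, 0, 0, by omega, h2, Or.inr ⟨?_, rfl, Or.inl ⟨rfl, rfl, rfl, rfl, rfl⟩⟩⟩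
      rw [neg_zero, zpow_zero, mul_one]
      exact hgD
    · have hg2 : (B.q a)⁻¹ * B.q g ∈ D := by
        have := hD.conj_mem _ hgD (B.q a)⁻¹
        have e : (B.q a)⁻¹ * (B.q g * B.q a ^ (-1 : ℤ)) * (B.q a)⁻¹⁻¹ = (B.q a)⁻¹ * B.q g := by group
        rwa [e] at this
      obtain ⟨M, T, s₁, v', h1, h2⟩ := nat1 hα hF s₀ hs₀ g hg2 hne
      exact ⟨_, _, _, _, M, T, 0, 1, 1, 0, by omega, h2, Or.inr ⟨hgD, rfl, Or.inr (Or.inl
        ⟨rfl, rfl, rfl, rfl, rfl⟩)⟩⟩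
    · have hg2 : B.q a * B.q g ∈ D := by
        have := hD.conj_mem _ hgD (B.q a)
        have e : B.q a * (B.q g * B.q a ^ (-(-1) : ℤ)) * (B.q a)⁻¹ = B.q a * B.q g := by group
        rwa [e] at this
      obtain ⟨M, T, v', h1, h2⟩ := nat2 hα hF s₀ hs₀ g hg2 hne'
      exact ⟨_, _, _, _, M, T, 1, 0, 0, 1, by omega, h2, Or.inr ⟨hgD, rfl, Or.inr (Or.inr
        ⟨rfl, rfl, rfl, rfl, rfl⟩)⟩⟩
  · obtain ⟨M, T, v', h1, h2⟩ := gadOff hα hF s₀ hs₀ g j hj hg hgD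
    exact ⟨_, _, _, _, M, T, _, _, _, _, by omega, h2, Or.inl ⟨hgD, rfl, rfl, rfl, rfl, rfl⟩⟩

end Pool.Agent.Lib.MP_688fd0_co.SQ2
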