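import Pool.Agent.Lib.MP_688fd0_co.SQ2.TW

/-!
Hole runs: through windows without a cap. `p₀, p₁` are the two holes of the top frontier.
-/

set_option autoImplicit false

namespace Pool.Agent.Lib.MP_688fd0_co.SQ2

open Pool.Agent.Lib.MP_688fd0_co.OSF

universe u v w

/-- A hole run. -/
structure HW {Q : Type u} [Group Q] (B : Lb.{u, v} Q) where
  L₀ : Finset Q
  L₁ : Finset Q
  u₀ : Q
  u₁ : Q
  p₀ : Q
  p₁ : Q
  cup : List B.L
  f : Q → Q
  path : Q → List B.L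
  hu₀ : u₀ ∈ L₀
  hu₁ : u₁ ∈ L₀
  hu : u₀ ≠ u₁
  hp₀ : p₀ ∈ L₁
  hp₁ : p₁ ∈ L₁
  hp : p₀ ≠ p₁
  cup_fin : B.fin u₀ cup = u₁
  path_fin : ∀ x ∈ L₀, x ≠ u₀ → x ≠ u₁ → B.fin x (path x) = f x
  f_mem : ∀ x ∈ L₀, x ≠ u₀ → x ≠ u₁ → f x ∈ L₁ ∧ f x ≠ p₀ ∧ f x ≠ p₁
  f_inj : ∀ x ∈ L₀, x ≠ u₀ → x ≠ u₁ → ∀ y ∈ L₀, y ≠ u₀ → y ≠ u₁ → f x = f y → x = y
  f_surj : ∀ y ∈ L₁, y ≠ p₀ → y ≠ p₁ → ∃ x ∈ L₀, x ≠ u₀ ∧ x ≠ u₁ ∧ f x = y

namespace HW

variable {Q : Type u} [Group Q] [DecidableEq Q] {B : Lb.{u, v} Q}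

/-- The tokens at the bottom. -/
def tok₀ (X : HW B) : Finset Q := (X.L₀.erase X.u₀).erase X.u₁

/-- The tokens at the top. -/
def tok₁ (X : HW B) : Finset Q := (X.L₁.erase X.p₀).erase X.p₁

theorem mem_tok₀ {X : HW B} {x : Q} : x ∈ X.tok₀ ↔ x ∈ X.L₀ ∧ x ≠ X.u₀ ∧ x ≠ X.u₁ := by
  unfold tok₀; rw [Finset.mem_erase, Finset.mem_erase]; tauto

theorem mem_tok₁ {X : HW B} {x : Q} : x ∈ X.tok₁ ↔ x ∈ X.L₁ ∧ x ≠ X.p₀ ∧ x ≠ X.p₁ := by
  unfold tok₁; rw [Finset.mem_erase, Finset.mem_erase]; tauto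

/-- The multiset of used vertices. -/
def R (X : HW B) : Multiset Q :=
  ∑ x ∈ X.tok₀, (src B x (X.path x) : Multiset Q) + (B.verts X.u₀ X.cup : Multiset Q)

theorem L₁_val (X : HW B) : X.L₁.val = X.tok₁.val + {X.p₀} + {X.p₁} := by
  unfold tok₁
  have h1 : X.p₁ ∈ X.L₁.erase X.p₀ := Finset.mem_erase.2 ⟨X.hp.symm, X.hp₁⟩
  have e1 : (X.L₁.erase X.p₀).val = ((X.L₁.erase X.p₀).erase X.p₁).val + {X.p₁} := by
    rw [Finset.erase_val (X.L₁.erase X.p₀), Multiset.add_comm]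
    exact (Multiset.cons_erase (Finset.mem_def.1 h1)).symm
  have e2 : X.L₁.val = (X.L₁.erase X.p₀).val + {X.p₀} := by
    rw [Finset.erase_val, Multiset.add_comm]
    exact (Multiset.cons_erase (Finset.mem_def.1 X.hp₀)).symm
  rw [e2, e1]; abel

/-- Reindexing of sums over the tokens. -/
theorem sum_f {M : Type*} [AddCommMonoid M] (X : HW B) (g : Q → M) :
    ∑ x ∈ X.tok₀, g (X.f x) = ∑ y ∈ X.tok₁, g y := by
  refine Finset.sum_nbij X.f ?_ ?_ ?_ ?_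
  · intro x hx
    rw [mem_tok₀] at hx
    rw [mem_tok₁]
    exact X.f_mem x hx.1 hx.2.1 hx.2.2
  · intro x hx y hy h
    have hx := mem_tok₀.1 (Finset.mem_coe.1 hx)
    have hy := mem_tok₀.1 (Finset.mem_coe.1 hy)
    exact X.f_inj x hx.1 hx.2.1 hx.2.2 y hy.1 hy.2.1 hy.2.2 h
  · intro y hy
    have hy := mem_tok₁.1 (Finset.mem_coe.1 hy)
    obtain ⟨x, h1, h2, h3, h4⟩ := X.f_surj y hy.1 hy.2.1 hy.2.2
    exact ⟨x, Finset.mem_coe.2 (mem_tok₀.2 ⟨h1, h2, h3⟩), h4⟩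
  · intro x _; rfl

/-! ### A general step -/

/-- The data of a step: the tokens at the top of `X` go on to the frontier `L` with holes `p, q`. -/
structure Step (X : HW B) where
  L : Finset Q
  p : Q
  q : Q
  g : Q → Q
  gp : Q → List B.L
  hp : p ∈ L
  hq : q ∈ L
  hpq : p ≠ q
  fin : ∀ y ∈ X.tok₁, B.fin y (gp y) = g y
  mem : ∀ y ∈ X.tok₁, g y ∈ L ∧ g y ≠ p ∧ g y ≠ q
  inj : ∀ y ∈ X.tok₁, ∀ z ∈ X.tok₁, g y = g z → y = z
  surj : ∀ z ∈ L, z ≠ p → z ≠ q → ∃ y ∈ X.tok₁, g y = z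

/-- A hole run followed by a step. -/
def post (X : HW B) (S : X.Step) : HW B where
  L₀ := X.L₀
  L₁ := S.L
  u₀ := X.u₀
  u₁ := X.u₁
  p₀ := S.p
  p₁ := S.q
  cup := X.cup
  f := fun x => S.g (X.f x)
  path := fun x => X.path x ++ S.gp (X.f x)
  hu₀ := X.hu₀
  hu₁ := X.hu₁
  hu := X.hu
  hp₀ := S.hp
  hp₁ := S.hq
  hp := S.hpq
  cup_fin := X.cup_fin
  path_fin := fun x h h0 h1 => by
    rw [fin_append, X.path_fin x h h0 h1]
    exact S.fin _ (mem_tok₁.2 (X.f_mem x h h0 h1))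
  f_mem := fun x h h0 h1 => S.mem _ (mem_tok₁.2 (X.f_mem x h h0 h1))
  f_inj := fun x h h0 h1 y h' h0' h1' he => X.f_inj x h h0 h1 y h' h0' h1'
    (S.inj _ (mem_tok₁.2 (X.f_mem x h h0 h1)) _ (mem_tok₁.2 (X.f_mem y h' h0' h1')) he)
  f_surj := fun z h h0 h1 => by
    obtain ⟨y, a1, a2⟩ := S.surj z h h0 h1
    rw [mem_tok₁] at a1
    obtain ⟨x, b1, b2, b3, b4⟩ := X.f_surj y a1.1 a1.2.1 a1.2.2
    exact ⟨x, b1, b2, b3, by rw [b4, a2]⟩

theorem post_R (X : HW B) (S : X.Step) :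
    (X.post S).R = X.R + ∑ y ∈ X.tok₁, (src B y (S.gp y) : Multiset Q) := by
  have e0 : (X.post S).R = ∑ x ∈ X.tok₀, (src B x (X.path x ++ S.gp (X.f x)) : Multiset Q) +
      (B.verts X.u₀ X.cup : Multiset Q) := rfl
  have e1 : ∑ x ∈ X.tok₀, (src B x (X.path x ++ S.gp (X.f x)) : Multiset Q) =
      ∑ x ∈ X.tok₀, (src B x (X.path x) : Multiset Q) +
      ∑ y ∈ X.tok₁, (src B y (S.gp y) : Multiset Q) := by
    rw [← X.sum_f (fun y => (src B y (S.gp y) : Multiset Q)), ← Finset.sum_add_distrib]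
    refine Finset.sum_congr rfl fun x hx => ?_
    rw [mem_tok₀] at hx
    rw [src_append, X.path_fin x hx.1 hx.2.1 hx.2.2]
    rfl
  rw [e0, e1]
  unfold R
  abel

/-! ### Exchange of the holes -/

/-- The holes are exchanged. -/
def swap (X : HW B) : HW B where
  L₀ := X.L₀
  L₁ := X.L₁
  u₀ := X.u₀
  u₁ := X.u₁
  p₀ := X.p₁
  p₁ := X.p₀
  cup := X.cup
  f := X.f
  path := X.path
  hu₀ := X.hu₀
  hu₁ := X.hu₁
  hu := X.hu
  hp₀ := X.hp₁
  hp₁ := X.hp₀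
  hp := X.hp.symm
  cup_fin := X.cup_fin
  path_fin := X.path_fin
  f_mem := fun x h h0 h1 => ⟨(X.f_mem x h h0 h1).1, (X.f_mem x h h0 h1).2.2, (X.f_mem x h h0 h1).2.1⟩
  f_inj := X.f_inj
  f_surj := fun y h h0 h1 => X.f_surj y h h1 h0

theorem swap_R (X : HW B) : X.swap.R = X.R := rfl

/-! ### Advance -/

/-- All tokens and holes advance by the label `a`. -/
def advS (X : HW B) (a : B.L) : X.Step where
  L := rt X.L₁ (B.q a)
  p := X.p₀ * B.q a
  q := X.p₁ * B.q a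
  g := fun y => y * B.q a
  gp := fun _ => [a]
  hp := mul_mem_rt.2 X.hp₀
  hq := mul_mem_rt.2 X.hp₁
  hpq := fun h => X.hp (mul_right_cancel h)
  fin := fun y _ => rfl
  mem := fun y hy => by
    rw [mem_tok₁] at hy
    exact ⟨mul_mem_rt.2 hy.1, fun h => hy.2.1 (mul_right_cancel h), fun h => hy.2.2 (mul_right_cancel h)⟩
  inj := fun y _ z _ h => mul_right_cancel h
  surj := fun z hz h0 h1 => by
    refine ⟨z * (B.q a)⁻¹, mem_tok₁.2 ⟨mem_rt.1 hz, fun h => h0 (by rw [← h]; group),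
      fun h => h1 (by rw [← h]; group)⟩, by group⟩

/-- Advance. -/
def adv (X : HW B) (a : B.L) : HW B := X.post (X.advS a)

omit [DecidableEq Q] in
theorem sum_src_one (s : Finset Q) (a : B.L) :
    ∑ y ∈ s, (src B y [a] : Multiset Q) = s.val := TW.sum_singleton s

theorem adv_R (X : HW B) (a : B.L) : (X.adv a).R = X.R + X.tok₁.val := by
  unfold adv
  rw [post_R]
  congr 1
  exact sum_src_one _ a

/-! ### Crossing -/

/-- The token at `r` goes to the hole `p₀` by the labels `c`; the new hole is `r` (already used). -/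
def crossS (X : HW B) (r : Q) (c : List B.L) (hr : r ∈ X.tok₁) (hc : B.fin r c = X.p₀) : X.Step where
  L := X.L₁
  p := r
  q := X.p₁
  g := fun y => if y = r then X.p₀ else y
  gp := fun y => if y = r then c else []
  hp := (mem_tok₁.1 hr).1
  hq := X.hp₁
  hpq := (mem_tok₁.1 hr).2.2
  fin := fun y _ => by
    by_cases h : y = r
    · rw [if_pos h, if_pos h, h, hc]
    · rw [if_neg h, if_neg h]; rfl
  mem := fun y hy => by
    rw [mem_tok₁] at hy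
    by_cases h : y = r
    · rw [if_pos h]
      exact ⟨X.hp₀, fun h' => (mem_tok₁.1 hr).2.1 h'.symm, X.hp⟩
    · rw [if_neg h]
      exact ⟨hy.1, h, hy.2.2⟩
  inj := fun y hy z hz he => by
    rw [mem_tok₁] at hy hz
    by_cases h : y = r <;> by_cases h' : z = r
    · rw [h, h']
    · rw [if_pos h, if_neg h'] at he; exact absurd he.symm hz.2.1
    · rw [if_neg h, if_pos h'] at he; exact absurd he hy.2.1
    · rwa [if_neg h, if_neg h'] at he
  surj := fun z hz h0 h1 => by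
    by_cases h : z = X.p₀
    · exact ⟨r, hr, by rw [if_pos rfl, h]⟩
    · exact ⟨z, mem_tok₁.2 ⟨hz, h, h1⟩, by rw [if_neg h0]⟩

/-- Crossing at the hole `p₀`. -/
def cross (X : HW B) (r : Q) (c : List B.L) (hr : r ∈ X.tok₁) (hc : B.fin r c = X.p₀) : HW B :=
  X.post (X.crossS r c hr hc)

theorem cross_R (X : HW B) (r : Q) (c : List B.L) (hr : r ∈ X.tok₁) (hc : B.fin r c = X.p₀) :
    (X.cross r c hr hc).R = X.R + (src B r c : Multiset Q) := by
  unfold cross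
  rw [post_R]
  congr 1
  have h : ∀ y ∈ X.tok₁, (src B y ((X.crossS r c hr hc).gp y) : Multiset Q) =
      if y = r then (src B r c : Multiset Q) else 0 := by
    intro y _
    show (src B y (if y = r then c else []) : Multiset Q) = _
    by_cases h : y = r
    · rw [if_pos h, if_pos h, h]
    · rw [if_neg h, if_neg h]; rfl
  rw [Finset.sum_congr rfl h, Finset.sum_ite_eq', if_pos hr]

/-! ### Closing -/

/-- The holes are joined by the path `c`. -/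
def close (X : HW B) (c : List B.L) (hc : B.fin X.p₀ c = X.p₁) : TW B where
  L₀ := X.L₀
  L₁ := X.L₁
  u₀ := X.u₀
  u₁ := X.u₁
  w₀ := X.p₀
  w₁ := X.p₁
  cup := X.cup
  cap := c
  f := X.f
  path := X.path
  hu₀ := X.hu₀
  hu₁ := X.hu₁
  hu := X.hu
  hw₀ := X.hp₀
  hw₁ := X.hp₁
  hw := X.hp
  cup_fin := X.cup_fin
  cap_fin := hc
  path_fin := X.path_fin
  f_mem := X.f_mem
  f_inj := X.f_inj
  f_surj := X.f_surj

theorem close_R (X : HW B) (c : List B.L) (hc : B.fin X.p₀ c = X.p₁) :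
    (X.close c hc).R = X.R + ((src B X.p₀ c).tail : Multiset Q) := rfl

/-! ### Start -/

/-- Start: a cup between `x` and `y` in the frontier `L`. -/
def start (L : Finset Q) (x y : Q) (c : List B.L) (hx : x ∈ L) (hy : y ∈ L) (hxy : x ≠ y)
    (hc : B.fin x c = y) : HW B where
  L₀ := L
  L₁ := L
  u₀ := x
  u₁ := y
  p₀ := x
  p₁ := y
  cup := c
  f := fun z => z
  path := fun _ => []
  hu₀ := hx
  hu₁ := hy
  hu := hxy
  hp₀ := hx
  hp₁ := hy
  hp := hxy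
  cup_fin := hc
  path_fin := fun _ _ _ _ => rfl
  f_mem := fun _ h h0 h1 => ⟨h, h0, h1⟩
  f_inj := fun _ _ _ _ _ _ _ _ h => h
  f_surj := fun z h h0 h1 => ⟨z, h, h0, h1, rfl⟩

theorem start_R (L : Finset Q) (x y : Q) (c : List B.L) (hx : x ∈ L) (hy : y ∈ L) (hxy : x ≠ y)
    (hc : B.fin x c = y) : (start L x y c hx hy hxy hc).R = (B.verts x c : Multiset Q) := by
  unfold R
  show ∑ x ∈ _, (src B x [] : Multiset Q) + (B.verts x c : Multiset Q) = _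
  have : ∀ s : Finset Q, ∑ x ∈ s, (src B x [] : Multiset Q) = 0 := fun s =>
    Finset.sum_eq_zero fun x _ => rfl
  rw [this, zero_add]

end HW

end Pool.Agent.Lib.MP_688fd0_co.SQ2
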