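import Pool.Agent.Lib.MP_688fd0_co.SQ2.H98.Hole
import Pool.Agent.Lib.MP_688fd0_co.SQ2.H98.Collar

/-!
T-gadgets.

`L` is a frontier which is mapped to `z L` by the label `a` (`A` is the permutation `y ↦ z⁻¹ y a`). In the applications
`z` is central, but this is not needed here.

`TG0`: the rungs join the vertices of `L` among themselves (height 0, or two sheets), `P y = y q(ℓ y)`.

`TG1`: the rungs go from `L` to `z L` (height 1), `P y = z⁻¹ y v`.

`D l y` means that the vertex `z ^ l y` belongs to the component of the gadget; the tokens outside go straight (`Tk`).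
-/

set_option autoImplicit false

namespace Pool.Agent.Lib.MP_688fd0_co.SQ2

open Pool.Agent.Lib.MP_688fd0_co.OSF Finset

universe u v w

variable {Q : Type u} [Group Q] [DecidableEq Q] {B : Lb.{u, v} Q}

omit [DecidableEq Q] in
theorem rt_level {L : Finset Q} {z : Q} {a : B.L}
    {A : Equiv.Perm L} (hA : ∀ y : L, (y : Q) * B.q a = z * (A y : Q)) (l : ℕ) :
    rt (lt (z ^ l) L) (B.q a) = lt (z ^ (l + 1)) L := by
  rw [← lt_rt, pow_succ, lt_mul]
  congr 1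
  ext x
  rw [mem_rt, mem_lt]
  constructor
  · intro h
    have h1 := hA ⟨_, h⟩
    have h2 : z⁻¹ * x = (A ⟨_, h⟩ : Q) := by
      rw [inv_mul_eq_iff_eq_mul, ← h1]
      group
    rw [h2]
    exact (A ⟨_, h⟩).2
  · intro h
    have h1 := hA (A.symm ⟨_, h⟩)
    rw [Equiv.apply_symm_apply] at h1
    have h2 : x * (B.q a)⁻¹ = (A.symm ⟨_, h⟩ : Q) := by
      rw [mul_inv_eq_iff_eq_mul, h1]
      group
    rw [h2]
    exact (A.symm ⟨_, h⟩).2

omit [DecidableEq Q] in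
theorem mem_level {L : Finset Q} {z : Q} (l : ℕ) (y : L) : z ^ l * (y : Q) ∈ lt (z ^ l) L :=
  mul_mem_lt.2 y.2

section tokens

variable {L : Finset Q} {z : Q} {a : B.L} {A : Equiv.Perm L} {D : ℕ → L → Prop}

/-- The tokens at level `n`: those in `D` are again in `D`, the others have gone straight. -/
def Tk (A : Equiv.Perm L) (z : Q) (a : B.L) (D : ℕ → L → Prop) (u₀ u₁ : Q) (f : Q → Q)
    (path : Q → List B.L) (n : ℕ) : Prop :=
  ∀ x : L, (x : Q) ≠ u₀ → (x : Q) ≠ u₁ →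
    (D 0 x → ∃ y : L, D n y ∧ f x = z ^ n * (y : Q)) ∧
    (¬ D 0 x → f x = z ^ n * (((A ^ n) x : L) : Q) ∧ path x = reps a n)

omit [Group Q] [DecidableEq Q] in
theorem not_D (hDA' : ∀ (l : ℕ) (y : L), D (l + 1) (A y) → D l y) (x : L) (hx : ¬ D 0 x) (n : ℕ) :
    ¬ D n ((A ^ n) x) := by
  induction n with
  | zero => exact hx
  | succ n ih =>
    intro h
    rw [pow_succ'] at h
    exact ih (hDA' _ _ h)

theorem tk_cross (hDA' : ∀ (l : ℕ) (y : L), D (l + 1) (A y) → D l y) (X : HW B) (n : ℕ)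
    (h : Tk A z a D X.u₀ X.u₁ X.f X.path n) (r : Q) (c : List B.L) (hr : r ∈ X.tok₁)
    (hc : B.fin r c = X.p₀) (r' p' : L) (hr' : D n r') (hp' : D n p') (er : r = z ^ n * (r' : Q))
    (ep : X.p₀ = z ^ n * (p' : Q)) :
    Tk A z a D (X.cross r c hr hc).u₀ (X.cross r c hr hc).u₁ (X.cross r c hr hc).f
      (X.cross r c hr hc).path n := by
  intro x h0 h1
  obtain ⟨t1, t2⟩ := h x h0 h1
  have ef : (X.cross r c hr hc).f x = if X.f x = r then X.p₀ else X.f x := rfl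
  have eg : (X.cross r c hr hc).path x = X.path x ++ (if X.f x = r then c else []) := rfl
  refine ⟨fun hx => ?_, fun hx => ?_⟩
  · obtain ⟨y, hy, e⟩ := t1 hx
    by_cases hh : X.f x = r
    · exact ⟨p', hp', by rw [ef, if_pos hh, ep]⟩
    · exact ⟨y, hy, by rw [ef, if_neg hh, e]⟩
  · obtain ⟨e1, e2⟩ := t2 hx
    have hh : X.f x ≠ r := by
      intro h'
      rw [e1, er] at h'
      have h2 := Subtype.ext (mul_left_cancel h')
      exact not_D hDA' x hx n (h2 ▸ hr')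
    refine ⟨by rw [ef, if_neg hh, e1], ?_⟩
    rw [eg, if_neg hh, List.append_nil, e2]

theorem tk_adv (hA : ∀ y : L, (y : Q) * B.q a = z * (A y : Q))
    (hDA : ∀ (l : ℕ) (y : L), D l y → D (l + 1) (A y)) (X : HW B) (n : ℕ)
    (h : Tk A z a D X.u₀ X.u₁ X.f X.path n) :
    Tk A z a D (X.adv a).u₀ (X.adv a).u₁ (X.adv a).f (X.adv a).path (n + 1) := by
  intro x h0 h1
  obtain ⟨t1, t2⟩ := h x h0 h1
  have ef : (X.adv a).f x = X.f x * B.q a := rfl
  have eg : (X.adv a).path x = X.path x ++ [a] := rfl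
  have e : ∀ y : L, z ^ n * (y : Q) * B.q a = z ^ (n + 1) * (A y : Q) := by
    intro y
    rw [mul_assoc, hA y, ← mul_assoc, pow_succ]
  refine ⟨fun hx => ?_, fun hx => ?_⟩
  · obtain ⟨y, hy, e1⟩ := t1 hx
    exact ⟨A y, hDA _ _ hy, by rw [ef, e1, e]⟩
  · obtain ⟨e1, e2⟩ := t2 hx
    refine ⟨?_, ?_⟩
    · rw [ef, e1, e, pow_succ' A]
      rfl
    · rw [eg, e2]
      exact List.replicate_succ'.symm

omit [DecidableEq Q] in
theorem tk_start (u₀ u₁ : Q) : Tk A z a D u₀ u₁ (fun z : Q => z) (fun _ => []) 0 := by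
  intro x _ _
  refine ⟨fun hx => ⟨x, hx, ?_⟩, fun _ => ⟨?_, rfl⟩⟩
  · rw [pow_zero, one_mul]
  · rw [pow_zero, pow_zero, one_mul]
    rfl

end tokens

section height0

variable {L : Finset Q} {z : Q} {a : B.L} {A P : Equiv.Perm L} {ℓ : L → B.L} {D : ℕ → L → Prop}
  (hA : ∀ y : L, (y : Q) * B.q a = z * (A y : Q))
  (hP : ∀ (l : ℕ) (y : L), D l y → (y : Q) * B.q (ℓ y) = (P y : Q))
  (hDA : ∀ (l : ℕ) (y : L), D l y → D (l + 1) (A y)) (hDP : ∀ (l : ℕ) (y : L), D l y → D l (P y))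
  (hDA' : ∀ (l : ℕ) (y : L), D (l + 1) (A y) → D l y)

omit [DecidableEq Q] in
include hP in
theorem P_ne (l : ℕ) (y : L) (hy : D l y) : P y ≠ y := by
  intro h
  have := hP l y hy
  rw [h] at this
  exact B.ne_one _ (mul_eq_left.1 this)

include hA hP hDA hDP hDA' in
/-- One level of the hole run. -/
theorem run0_step (X : HW B) (l : ℕ) (p q : L) (hDp : D l p) (hDq : D l q) (hL : X.L₁ = lt (z ^ l) L)
    (hp₀ : X.p₀ = z ^ l * (p : Q)) (hp₁ : X.p₁ = z ^ l * (q : Q)) (hne : P p ≠ q)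
    (ht : Tk A z a D X.u₀ X.u₁ X.f X.path l) :
    ∃ Y : HW B, Y.L₀ = X.L₀ ∧ Y.L₁ = lt (z ^ (l + 1)) L ∧ Y.u₀ = X.u₀ ∧ Y.u₁ = X.u₁ ∧
      Y.cup = X.cup ∧ Y.p₀ = z ^ (l + 1) * (A (P p) : Q) ∧ Y.p₁ = z ^ (l + 1) * (A (P q) : Q) ∧
      Y.R = X.R + (lt (z ^ l) L).val ∧ Tk A z a D Y.u₀ Y.u₁ Y.f Y.path (l + 1) := by
  have hpq : p ≠ q := by
    rintro rfl
    exact X.hp (by rw [hp₀, hp₁])
  have hr : z ^ l * (P p : Q) ∈ X.tok₁ := by
    rw [HW.mem_tok₁, hL, hp₀, hp₁]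
    refine ⟨mem_level l _, fun h => ?_, fun h => ?_⟩
    · exact P_ne hP l p hDp (Subtype.ext (mul_left_cancel h))
    · exact hne (Subtype.ext (mul_left_cancel h))
  have hc : B.fin (z ^ l * (P p : Q)) [B.inv (ℓ p)] = X.p₀ := by
    show z ^ l * (P p : Q) * B.q (B.inv (ℓ p)) = X.p₀
    rw [hp₀, B.q_inv, mul_assoc, ← hP l p hDp, mul_inv_cancel_right]
  set X1 := (X.cross _ _ hr hc).swap with hX1
  have h1L : X1.L₁ = lt (z ^ l) L := hL
  have h1p : X1.p₀ = z ^ l * (q : Q) := hp₁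
  have h1q : X1.p₁ = z ^ l * (P p : Q) := rfl
  have h1R : X1.R = X.R + {z ^ l * (P p : Q)} := by
    rw [hX1, HW.swap_R, HW.cross_R]; rfl
  have h1T : Tk A z a D X1.u₀ X1.u₁ X1.f X1.path l :=
    tk_cross hDA' X l ht _ _ hr hc (P p) p (hDP _ _ hDp) hDp rfl hp₀
  have hr' : z ^ l * (P q : Q) ∈ X1.tok₁ := by
    rw [HW.mem_tok₁, h1L, h1p, h1q]
    refine ⟨mem_level l _, fun h => ?_, fun h => ?_⟩
    · exact P_ne hP l q hDq (Subtype.ext (mul_left_cancel h))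
    · exact hpq (P.injective (Subtype.ext (mul_left_cancel h))).symm
  have hc' : B.fin (z ^ l * (P q : Q)) [B.inv (ℓ q)] = X1.p₀ := by
    show z ^ l * (P q : Q) * B.q (B.inv (ℓ q)) = X1.p₀
    rw [h1p, B.q_inv, mul_assoc, ← hP l q hDq, mul_inv_cancel_right]
  set X2 := (X1.cross _ _ hr' hc').swap with hX2
  have h2L : X2.L₁ = lt (z ^ l) L := h1L
  have h2p : X2.p₀ = z ^ l * (P p : Q) := h1q
  have h2q : X2.p₁ = z ^ l * (P q : Q) := rfl
  have h2R : X2.R = X.R + {z ^ l * (P p : Q)} + {z ^ l * (P q : Q)} := by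
    rw [hX2, HW.swap_R, HW.cross_R, h1R]; rfl
  have h2T : Tk A z a D X2.u₀ X2.u₁ X2.f X2.path l :=
    tk_cross hDA' X1 l h1T _ _ hr' hc' (P q) q (hDP _ _ hDq) hDq rfl h1p
  have h2t := X2.L₁_val
  rw [h2p, h2q, h2L] at h2t
  have e : ∀ y : L, z ^ l * (y : Q) * B.q a = z ^ (l + 1) * (A y : Q) := by
    intro y
    rw [mul_assoc, hA y, ← mul_assoc, pow_succ]
  refine ⟨X2.adv a, rfl, ?_, rfl, rfl, rfl, ?_, ?_, ?_, tk_adv hA hDA X2 l h2T⟩
  · show rt X2.L₁ (B.q a) = _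
    rw [h2L]
    exact rt_level hA l
  · show X2.p₀ * B.q a = _
    rw [h2p, e]
  · show X2.p₁ * B.q a = _
    rw [h2q, e]
  · rw [HW.adv_R, h2R, h2t]
    abel

omit [Group Q] [DecidableEq Q] in
include hDA hDP in
theorem D_pow (x : L) (hx : D 0 x) (n : ℕ) :
    D n (((A * P) ^ n) x) ∧ D (n + 1) (((A * P) ^ n * A) x) := by
  have h : ∀ n k : ℕ, ∀ y : L, D k y → D (k + n) (((A * P) ^ n) y) := by
    intro n
    induction n with
    | zero => intro k y hy; exact hy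
    | succ n ih =>
      intro k y hy
      rw [pow_succ']
      exact hDA _ _ (hDP _ _ (ih k y hy))
  have h1 := h n 0 x hx
  have h2 := h n 1 (A x) (hDA 0 x hx)
  rw [zero_add] at h1
  rw [add_comm] at h2
  exact ⟨h1, h2⟩

include hA hP hDA hDP hDA' in
/-- The hole run up to the level `n + 1`. -/
theorem run0 (x : L) (hx : D 0 x) (n : ℕ)
    (hn : ∀ i < n, P (((A * P) ^ i * A) x) ≠ ((A * P) ^ (i + 1)) x) :
    ∃ X : HW B, X.L₀ = L ∧ X.L₁ = lt (z ^ (n + 1)) L ∧ X.u₀ = x ∧ X.u₁ = P x ∧ X.cup = [ℓ x] ∧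
      X.p₀ = z ^ (n + 1) * (((A * P) ^ n * A) x : Q) ∧ X.p₁ = z ^ (n + 1) * (((A * P) ^ (n + 1)) x : Q) ∧
      X.R = ∑ i ∈ range (n + 1), (lt (z ^ i) L).val ∧ Tk A z a D X.u₀ X.u₁ X.f X.path (n + 1) := by
  have e : ∀ y : L, (y : Q) * B.q a = z ^ 1 * (A y : Q) := by
    intro y
    rw [hA y, pow_one]
  induction n with
  | zero =>
    have hf : B.fin (x : Q) [ℓ x] = (P x : Q) := hP 0 x hx
    set X0 : HW B := HW.start L (x : Q) (P x : Q) [ℓ x] x.2 (P x).2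
      (fun h => P_ne hP 0 x hx (Subtype.ext h).symm) hf with hX0
    have h0R : X0.R = {(x : Q)} + {(P x : Q)} := by
      rw [hX0, HW.start_R]
      show (((x : Q) :: [(x : Q) * B.q (ℓ x)] : List Q) : Multiset Q) = _
      rw [hP 0 x hx]
      rfl
    have h0t := X0.L₁_val
    have h0L : X0.L₁ = L := rfl
    have h0p : X0.p₀ = x := rfl
    have h0q : X0.p₁ = P x := rfl
    refine ⟨X0.adv a, rfl, ?_, rfl, rfl, rfl, ?_, ?_, ?_, tk_adv hA hDA X0 0 (tk_start _ _)⟩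
    · show rt L (B.q a) = _
      have := rt_level hA 0
      rw [pow_zero, lt_one] at this
      exact this
    · show (x : Q) * B.q a = _
      rw [e x]
      rfl
    · show (P x : Q) * B.q a = _
      rw [e (P x)]
      rfl
    · rw [HW.adv_R, h0R, range_one, sum_singleton, pow_zero, lt_one]
      rw [h0L, h0p, h0q] at h0t
      rw [h0t]
      abel
  | succ n ih =>
    obtain ⟨X, a1, a2, a3, a4, a5, a6, a7, a8, a9⟩ := ih (fun i hi => hn i (by omega))
    obtain ⟨Y, b1, b2, b3, b4, b5, b6, b7, b8, b9⟩ := run0_step hA hP hDA hDP hDA' X (n + 1) _ _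
      (D_pow hDA hDP x hx n).2 (D_pow hDA hDP x hx (n + 1)).1 a2 a6 a7 (hn n (by omega)) a9
    refine ⟨Y, b1.trans a1, b2, b3.trans a3, b4.trans a4, b5.trans a5, ?_, ?_, ?_, b9⟩
    · rw [b6]
      congr 2
      rw [pow_succ']
      rfl
    · rw [b7]
      congr 2
      rw [pow_succ' (A * P) (n + 1)]
      rfl
    · rw [b8, a8, sum_range_succ _ (n + 1)]

include hA hP hDA hDP hDA' in
/-- T-gadget of height 0. -/
theorem TG0 (x : L) (hx : D 0 x) :
    ∃ (m : ℕ) (y : L) (X : TW B), 1 ≤ m ∧ m ≤ L.card.factorial ∧ D m y ∧ X.L₀ = L ∧ X.L₁ = lt (z ^ m) L ∧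
      X.u₀ = x ∧ X.u₁ = P x ∧ X.cup = [ℓ x] ∧
      X.w₀ = z ^ m * (y : Q) ∧ X.w₁ = z ^ m * (P y : Q) ∧ X.cap = [ℓ y] ∧
      X.R = ∑ i ∈ range m, (lt (z ^ i) L).val ∧ Tk A z a D X.u₀ X.u₁ X.f X.path m := by
  classical
  have hcard : Nat.card (Equiv.Perm L) = L.card.factorial := by
    rw [Nat.card_perm]; simp
  have hc0 : 0 < L.card.factorial := Nat.factorial_pos _
  have hc1 : ∀ σ : Equiv.Perm L, σ ^ L.card.factorial = 1 := by
    intro σ
    rw [← hcard]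
    exact pow_card_eq_one'
  have h00 : P (((A * P) ^ (L.card.factorial - 1) * A) x) = ((A * P) ^ (L.card.factorial - 1 + 1)) x := by
    have h1 : L.card.factorial - 1 + 1 = L.card.factorial := by omega
    rw [h1, hc1]
    have h3 : ∀ n : ℕ, P * ((A * P) ^ n * A) = (P * A) ^ (n + 1) := by
      intro n
      induction n with
      | zero => rw [pow_zero, one_mul, zero_add, pow_one]
      | succ n ih => rw [pow_succ, pow_succ (P * A), ← ih]; simp only [mul_assoc]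
    have h4 : P (((A * P) ^ (L.card.factorial - 1) * A) x) =
        (P * ((A * P) ^ (L.card.factorial - 1) * A)) x := rfl
    rw [h4, h3, h1, hc1]
  have hex : ∃ n : ℕ, P (((A * P) ^ n * A) x) = ((A * P) ^ (n + 1)) x := ⟨_, h00⟩
  set n := Nat.find hex with hn
  have h1 := Nat.find_spec hex
  have h2 : ∀ i < n, P (((A * P) ^ i * A) x) ≠ ((A * P) ^ (i + 1)) x := fun i hi => Nat.find_min hex hi
  have h3 : n ≤ L.card.factorial - 1 := Nat.find_min' hex h00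
  have h4 := (D_pow hDA hDP x hx n).2
  obtain ⟨X, a1, a2, a3, a4, a5, a6, a7, a8, a9⟩ := run0 hA hP hDA hDP hDA' x hx n h2
  refine ⟨n + 1, ((A * P) ^ n * A) x, X.close [ℓ (((A * P) ^ n * A) x)] ?_, by omega, by omega, h4, a1, a2,
    a3, a4, a5, a6, ?_, rfl, ?_, a9⟩
  · show X.p₀ * B.q _ = X.p₁
    rw [a6, a7, mul_assoc, hP _ _ h4, h1]
  · show X.p₁ = _
    rw [a7, h1]
  · rw [HW.close_R, a8]
    show _ + (([] : List Q) : Multiset Q) = _
    simp

end height0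

section height1

variable {L : Finset Q} {z : Q} {a b : B.L} {A P : Equiv.Perm L} {D : ℕ → L → Prop}
  (hA : ∀ y : L, (y : Q) * B.q a = z * (A y : Q))
  (hP : ∀ (l : ℕ) (y : L), D l y → (y : Q) * B.q b = z * (P y : Q))
  (hDA : ∀ (l : ℕ) (y : L), D l y → D (l + 1) (A y))
  (hDP : ∀ (l : ℕ) (y : L), D l y → D (l + 1) (P y))
  (hDA' : ∀ (l : ℕ) (y : L), D (l + 1) (A y) → D l y)
  (hab : B.q b ≠ B.q a)

omit [DecidableEq Q] in
include hA hP hab in
theorem P_ne_A (l : ℕ) (y : L) (hy : D l y) : P y ≠ A y := by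
  intro h
  have h1 := hP l y hy
  have h2 := hA y
  rw [h, ← h2] at h1
  exact hab (mul_left_cancel h1)

/-- The local maximum and the local minimum of a level. -/
def mm (A P : Equiv.Perm L) (x : L) : ℕ → L × L
  | 0 => (x, x)
  | n + 1 => (P (mm A P x n).2, A (mm A P x n).1)

/-- The state map as a permutation. -/
def mmp (A P : Equiv.Perm L) : Equiv.Perm (L × L) where
  toFun := fun s => (P s.2, A s.1)
  invFun := fun s => (A.symm s.2, P.symm s.1)
  left_inv := fun s => by simp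
  right_inv := fun s => by simp

omit [Group Q] [DecidableEq Q] in
theorem mm_eq (A P : Equiv.Perm L) (x : L) (n : ℕ) : mm A P x n = ((mmp A P) ^ n) (x, x) := by
  induction n with
  | zero => rfl
  | succ n ih =>
    rw [pow_succ']
    show (P (mm A P x n).2, A (mm A P x n).1) = mmp A P (((mmp A P) ^ n) (x, x))
    rw [ih]
    rfl

omit [Group Q] [DecidableEq Q] in
include hDA hDP in
theorem D_mm (x : L) (hx : D 0 x) (n : ℕ) : D n (mm A P x n).1 ∧ D n (mm A P x n).2 := by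
  induction n with
  | zero => exact ⟨hx, hx⟩
  | succ n ih => exact ⟨hDP _ _ ih.2, hDA _ _ ih.1⟩

include hA hP hDA hDP hDA' hab in
/-- One level of the hole run. -/
theorem run1_step (X : HW B) (l : ℕ) (m k : L) (hm : D l m) (hL : X.L₁ = lt (z ^ (l + 1)) L)
    (hp₀ : X.p₀ = z ^ (l + 1) * (A m : Q)) (hp₁ : X.p₁ = z ^ (l + 1) * (k : Q)) (hne : P m ≠ k)
    (ht : Tk A z a D X.u₀ X.u₁ X.f X.path (l + 1)) :
    ∃ Y : HW B, Y.L₀ = X.L₀ ∧ Y.L₁ = lt (z ^ (l + 2)) L ∧ Y.u₀ = X.u₀ ∧ Y.u₁ = X.u₁ ∧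
      Y.cup = X.cup ∧ Y.p₀ = z ^ (l + 2) * (A k : Q) ∧ Y.p₁ = z ^ (l + 2) * (A (P m) : Q) ∧
      Y.R + {z ^ (l + 1) * (k : Q)} = X.R + {z ^ l * (m : Q)} + (lt (z ^ (l + 1)) L).val ∧
      Tk A z a D Y.u₀ Y.u₁ Y.f Y.path (l + 2) := by
  have hr : z ^ (l + 1) * (P m : Q) ∈ X.tok₁ := by
    rw [HW.mem_tok₁, hL, hp₀, hp₁]
    refine ⟨mem_level (l + 1) _, fun h => ?_, fun h => ?_⟩
    · exact P_ne_A hA hP hab l m hm (Subtype.ext (mul_left_cancel h))
    · exact hne (Subtype.ext (mul_left_cancel h))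
  have e0 : z ^ l * (m : Q) * B.q b = z ^ (l + 1) * (P m : Q) := by
    rw [mul_assoc, hP l m hm, ← mul_assoc, pow_succ]
  have e1 : ∀ (i : ℕ) (y : L), z ^ i * (y : Q) * B.q a = z ^ (i + 1) * (A y : Q) := by
    intro i y
    rw [mul_assoc, hA y, ← mul_assoc, pow_succ]
  have e2 : z ^ (l + 1) * (P m : Q) * B.q (B.inv b) = z ^ l * (m : Q) := by
    rw [← e0, B.q_inv, mul_inv_cancel_right]
  have hc : B.fin (z ^ (l + 1) * (P m : Q)) [B.inv b, a] = X.p₀ := by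
    show z ^ (l + 1) * (P m : Q) * B.q (B.inv b) * B.q a = X.p₀
    rw [e2, e1, hp₀]
  have hsrc : src B (z ^ (l + 1) * (P m : Q)) [B.inv b, a] =
      [z ^ (l + 1) * (P m : Q), z ^ l * (m : Q)] := by
    show [z ^ (l + 1) * (P m : Q), z ^ (l + 1) * (P m : Q) * B.q (B.inv b)] = _
    rw [e2]
  set X1 := (X.cross _ _ hr hc).swap with hX1
  have h1L : X1.L₁ = lt (z ^ (l + 1)) L := hL
  have h1p : X1.p₀ = z ^ (l + 1) * (k : Q) := hp₁
  have h1q : X1.p₁ = z ^ (l + 1) * (P m : Q) := rfl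
  have h1R : X1.R = X.R + ({z ^ (l + 1) * (P m : Q)} + {z ^ l * (m : Q)}) := by
    rw [hX1, HW.swap_R, HW.cross_R, hsrc]; rfl
  have h1T : Tk A z a D X1.u₀ X1.u₁ X1.f X1.path (l + 1) :=
    tk_cross hDA' X (l + 1) ht _ _ hr hc (P m) (A m) (hDP _ _ hm) (hDA _ _ hm) rfl hp₀
  have h1t := X1.L₁_val
  rw [h1p, h1q, h1L] at h1t
  refine ⟨X1.adv a, rfl, ?_, rfl, rfl, rfl, ?_, ?_, ?_, tk_adv hA hDA X1 (l + 1) h1T⟩
  · show rt X1.L₁ (B.q a) = _
    rw [h1L]
    exact rt_level hA (l + 1)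
  · show X1.p₀ * B.q a = _
    rw [h1p, e1]
  · show X1.p₁ * B.q a = _
    rw [h1q, e1]
  · rw [HW.adv_R, h1R, h1t]
    abel

include hA hP hDA hDP hDA' hab in
/-- The hole run up to the level `n + 2`. -/
theorem run1 (x : L) (hx : D 0 x) (n : ℕ) (hn : ∀ i, 1 ≤ i → i < n + 2 → (mm A P x i).1 ≠ (mm A P x i).2) :
    ∃ X : HW B, X.L₀ = L ∧ X.L₁ = lt (z ^ (n + 2)) L ∧ X.u₀ = x ∧ X.u₁ = A.symm (P x) ∧
      X.cup = [b, B.inv a] ∧ X.p₀ = z ^ (n + 2) * (A (mm A P x (n + 1)).2 : Q) ∧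
      X.p₁ = z ^ (n + 2) * ((mm A P x (n + 2)).2 : Q) ∧
      X.R + {z ^ (n + 1) * ((mm A P x (n + 1)).2 : Q)} = ∑ i ∈ range (n + 2), (lt (z ^ i) L).val ∧
      Tk A z a D X.u₀ X.u₁ X.f X.path (n + 2) := by
  induction n with
  | zero =>
    have hne : (x : Q) ≠ (A.symm (P x) : Q) := by
      intro h
      apply P_ne_A hA hP hab 0 x hx
      have := congrArg A (Subtype.ext h)
      rw [Equiv.apply_symm_apply] at this
      exact this.symm
    have h1 : (A.symm (P x) : Q) * B.q a = z * (P x : Q) := by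
      rw [hA, Equiv.apply_symm_apply]
    have hf : B.fin (x : Q) [b, B.inv a] = (A.symm (P x) : Q) := by
      show (x : Q) * B.q b * B.q (B.inv a) = _
      rw [hP 0 x hx, B.q_inv, ← h1, mul_inv_cancel_right]
    set X0 : HW B := HW.start L (x : Q) (A.symm (P x) : Q) [b, B.inv a] x.2 (A.symm (P x)).2 hne hf
      with hX0
    have h0R : X0.R = {(x : Q)} + {z * (P x : Q)} + {(A.symm (P x) : Q)} := by
      rw [hX0, HW.start_R]
      show (((x : Q) :: ((x : Q) * B.q b) :: [(x : Q) * B.q b * B.q (B.inv a)] : List Q) :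
        Multiset Q) = _
      have : (x : Q) * B.q b * B.q (B.inv a) = (A.symm (P x) : Q) := hf
      rw [this, hP 0 x hx]
      rfl
    have h0t := X0.L₁_val
    have h0L : X0.L₁ = L := rfl
    have h0p : X0.p₀ = x := rfl
    have h0q : X0.p₁ = A.symm (P x) := rfl
    rw [h0L, h0p, h0q] at h0t
    set X1 := X0.adv a with hX1
    have h1L : X1.L₁ = lt z L := by
      show rt L (B.q a) = _
      have := rt_level hA 0
      rw [pow_zero, lt_one, zero_add, pow_one] at this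
      exact this
    have h1p : X1.p₀ = z * (A x : Q) := hA x
    have h1q : X1.p₁ = z * (P x : Q) := h1
    have h1t := X1.L₁_val
    rw [h1L, h1p, h1q] at h1t
    have h1R : X1.R = L.val + {z * (P x : Q)} := by
      rw [hX1, HW.adv_R, h0R, h0t]
      abel
    refine ⟨X1.adv a, rfl, ?_, rfl, rfl, rfl, ?_, ?_, ?_,
      tk_adv hA hDA X1 1 (tk_adv hA hDA X0 0 (tk_start _ _))⟩
    · show rt X1.L₁ (B.q a) = _
      rw [h1L]
      have := rt_level hA 1
      rw [pow_one] at this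
      exact this
    · show X1.p₀ * B.q a = _
      rw [h1p, mul_assoc, hA (A x), ← mul_assoc, ← sq]
      rfl
    · show X1.p₁ * B.q a = _
      rw [h1q, mul_assoc, hA (P x), ← mul_assoc, ← sq]
      rfl
    · rw [HW.adv_R, h1R, sum_range_succ, range_one, sum_singleton, pow_zero, lt_one, zero_add, pow_one, h1t]
      have : ((mm A P x 1).2 : Q) = (A x : Q) := rfl
      rw [this]
      abel
  | succ n ih =>
    obtain ⟨X, a1, a2, a3, a4, a5, a6, a7, a8, a9⟩ := ih (fun i h1 hi => hn i h1 (by omega))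
    obtain ⟨Y, b1, b2, b3, b4, b5, b6, b7, b8, b9⟩ := run1_step hA hP hDA hDP hDA' hab X (n + 1) _ _
      (D_mm hDA hDP x hx (n + 1)).2 a2 a6 a7 (hn (n + 2) (by omega) (by omega)) a9
    refine ⟨Y, b1.trans a1, b2, b3.trans a3, b4.trans a4, b5.trans a5, b6, b7, ?_, b9⟩
    rw [sum_range_succ _ (n + 2), ← a8]
    exact b8

omit [Group Q] [DecidableEq Q] in
theorem mmp_sq (A P : Equiv.Perm L) (n : ℕ) (s : L × L) :
    ((mmp A P) ^ (2 * n)) s = (((P * A) ^ n) s.1, ((A * P) ^ n) s.2) := by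
  induction n generalizing s with
  | zero => rfl
  | succ n ih =>
    rw [show 2 * (n + 1) = 2 * n + 2 by ring, pow_add]
    show ((mmp A P) ^ (2 * n)) (((mmp A P) ^ 2) s) = _
    rw [ih, pow_succ (P * A), pow_succ (A * P)]
    rfl

include hA hP hDA hDP hDA' hab in
/-- T-gadget of height 1. -/
theorem TG1 (x : L) (hx : D 0 x) :
    ∃ (m : ℕ) (y : L) (X : TW B), 1 ≤ m ∧ m + 1 ≤ 2 * L.card.factorial ∧ D m y ∧ X.L₀ = L ∧
      X.L₁ = lt (z ^ (m + 1)) L ∧
      X.u₀ = x ∧ X.u₁ = A.symm (P x) ∧ X.cup = [b, B.inv a] ∧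
      X.w₀ = z ^ (m + 1) * (A y : Q) ∧ X.w₁ = z ^ (m + 1) * (P y : Q) ∧ X.cap = [B.inv a, b] ∧
      X.R = ∑ i ∈ range (m + 1), (lt (z ^ i) L).val ∧ Tk A z a D X.u₀ X.u₁ X.f X.path (m + 1) := by
  classical
  have hcard : Nat.card (Equiv.Perm L) = L.card.factorial := by
    rw [Nat.card_perm]; simp
  have hc0 : 0 < L.card.factorial := Nat.factorial_pos _
  have hc1 : ∀ σ : Equiv.Perm L, σ ^ L.card.factorial = 1 := by
    intro σ
    rw [← hcard]
    exact pow_card_eq_one'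
  have h00 : (mm A P x (2 * L.card.factorial - 1 + 1)).1 = (mm A P x (2 * L.card.factorial - 1 + 1)).2 := by
    rw [show 2 * L.card.factorial - 1 + 1 = 2 * L.card.factorial by omega, mm_eq, mmp_sq, hc1, hc1]
  have hex : ∃ n : ℕ, (mm A P x (n + 1)).1 = (mm A P x (n + 1)).2 := ⟨_, h00⟩
  set n := Nat.find hex with hn
  have h1 := Nat.find_spec hex
  have h2 : ∀ i, 1 ≤ i → i < n + 1 → (mm A P x i).1 ≠ (mm A P x i).2 := by
    intro i hi hi'
    have := Nat.find_min hex (m := i - 1) (by omega)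
    rw [show i - 1 + 1 = i by omega] at this
    exact this
  have hn1 : n ≠ 0 := by
    intro h0
    rw [← hn, h0] at h1
    exact P_ne_A hA hP hab 0 x hx h1
  have h5 : n ≤ 2 * L.card.factorial - 1 := Nat.find_min' hex h00
  obtain ⟨k, hk⟩ := Nat.exists_eq_succ_of_ne_zero hn1
  rw [← hn, hk] at h1
  rw [hk] at h2
  obtain ⟨X, a1, a2, a3, a4, a5, a6, a7, a8, a9⟩ := run1 hA hP hDA hDP hDA' hab x hx k h2
  have h6 := (D_mm hDA hDP x hx (k + 1)).2
  have h3 : (mm A P x (k + 2)).2 = P (mm A P x (k + 1)).2 := h1.symm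
  have e1 : z ^ (k + 1) * ((mm A P x (k + 1)).2 : Q) * B.q a =
      z ^ (k + 2) * (A (mm A P x (k + 1)).2 : Q) := by
    rw [mul_assoc, hA, ← mul_assoc, ← pow_succ]
  have e2 : z ^ (k + 2) * (A (mm A P x (k + 1)).2 : Q) * B.q (B.inv a) =
      z ^ (k + 1) * ((mm A P x (k + 1)).2 : Q) := by
    rw [← e1, B.q_inv, mul_inv_cancel_right]
  refine ⟨k + 1, (mm A P x (k + 1)).2, X.close [B.inv a, b] ?_, by omega, by omega, h6, a1, a2, a3, a4,
    a5, a6, ?_, rfl, ?_, a9⟩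
  · show X.p₀ * B.q (B.inv a) * B.q b = X.p₁
    rw [a6, a7, e2, mul_assoc, hP _ _ h6, h3, ← mul_assoc, ← pow_succ]
  · show X.p₁ = _
    rw [a7, h3]
  · rw [HW.close_R, ← a8]
    congr 1
    show (([X.p₀ * B.q (B.inv a)] : List Q) : Multiset Q) = _
    rw [a6, e2]
    rfl

end height1

end Pool.Agent.Lib.MP_688fd0_co.SQ2
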