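import Pool.Agent.Lib.MP_688fd0_co.SQ2.H98.Rect
import Pool.Agent.Lib.MP_688fd0_co.SQ2.H98.TG

/-!
Frontiers that are unions of cosets of a normal subgroup `D` modulo which the label `a` is central.
-/

set_option autoImplicit false

namespace Pool.Agent.Lib.MP_688fd0_co.SQ2

open Pool.Agent.Lib.MP_688fd0_co.OSF Finset

universe u v w

/-- The permutation of a finite set given by a map. -/
noncomputable def permOf {Q : Type u} {L : Finset Q} (φ : Q → Q) (h1 : ∀ y ∈ L, φ y ∈ L)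
    (h2 : ∀ y ∈ L, ∀ y' ∈ L, φ y = φ y' → y = y') : Equiv.Perm L :=
  Equiv.ofBijective (fun y : L => (⟨φ y, h1 y y.2⟩ : L))
    (Finite.injective_iff_bijective.1 (fun y y' h => Subtype.ext (h2 _ y.2 _ y'.2 (congrArg Subtype.val h))))

theorem permOf_apply {Q : Type u} {L : Finset Q} (φ : Q → Q) (h1 : ∀ y ∈ L, φ y ∈ L)
    (h2 : ∀ y ∈ L, ∀ y' ∈ L, φ y = φ y' → y = y') (y : L) : (permOf φ h1 h2 y : Q) = φ y := rfl

section centralModulo

variable {Q : Type u} [Group Q] {D : Subgroup Q} [hD : D.Normal] {α : Q}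
  (hα : ∀ q : Q, α * q * α⁻¹ * q⁻¹ ∈ D)

include hα in
/-- In the quotient `α` is central. -/
theorem mk_comm (q : Q) : Commute (QuotientGroup.mk' D α) (QuotientGroup.mk' D q) := by
  have h := (QuotientGroup.eq_one_iff _).2 (hα q)
  have h' : QuotientGroup.mk' D (α * q * α⁻¹ * q⁻¹) = 1 := h
  rw [map_mul, map_mul, map_mul, map_inv, map_inv] at h'
  have h2 := mul_inv_eq_one.1 h'
  have h3 := mul_inv_eq_iff_eq_mul.1 h2
  exact h3

include hα in
theorem mk_comm_zpow (n : ℤ) (q : Q) : Commute (QuotientGroup.mk' D α ^ n) (QuotientGroup.mk' D q) :=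
  (mk_comm hα q).zpow_left n

theorem mem_iff_mk {x : Q} : x ∈ D ↔ QuotientGroup.mk' D x = 1 := (QuotientGroup.eq_one_iff x).symm

include hα in
/-- Conjugation by powers of `α` may be omitted. -/
theorem conjD (n : ℤ) (s y t : Q) : s * (α ^ n * y * (α ^ n)⁻¹) * t ∈ D ↔ s * y * t ∈ D := by
  rw [mem_iff_mk (D := D), mem_iff_mk (D := D)]
  simp only [map_mul, map_inv, map_zpow]
  rw [(mk_comm_zpow hα n y).eq, mul_inv_cancel_right]

include hα in
theorem conjD1 (s y : Q) : s * (α⁻¹ * (y * α)) ∈ D ↔ s * y ∈ D := by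
  have h := conjD hα (-1) s y 1
  rw [mul_one, mul_one, zpow_neg_one, inv_inv, mul_assoc α⁻¹] at h
  exact h

include hα in
theorem conjD2 (s y t : Q) : s * (α⁻¹ * (y * α)) * t ∈ D ↔ s * y * t ∈ D := by
  have h := conjD hα (-1) s y t
  rw [zpow_neg_one, inv_inv, mul_assoc α⁻¹] at h
  exact h

include hα in
theorem conjD3 (n : ℕ) (s y t : Q) : s * (α ^ n * y * (α ^ n)⁻¹) * t ∈ D ↔ s * y * t ∈ D := by
  have h := conjD hα n s y t
  rw [zpow_natCast] at h
  exact h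

variable {L : Finset Q} (hL : ∀ y ∈ L, ∀ d ∈ D, y * d ∈ L)

include hα hL in
theorem conjL (n : ℤ) {y : Q} (hy : y ∈ L) : α ^ n * y * (α ^ n)⁻¹ ∈ L := by
  have h : y⁻¹ * (α ^ n * y * (α ^ n)⁻¹) * 1 ∈ D := (conjD hα n _ _ _).2 (by simp)
  have := hL y hy _ h
  rwa [mul_one, mul_inv_cancel_left] at this

include hα hL in
theorem conjL1 {y : Q} (hy : y ∈ L) : α⁻¹ * (y * α) ∈ L := by
  have h := conjL hα hL (-1) hy
  rw [zpow_neg_one, inv_inv, mul_assoc] at h
  exact h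

/-- The permutation `y ↦ α⁻¹ y α` of the frontier. -/
noncomputable def pA : Equiv.Perm L :=
  permOf (fun y => α⁻¹ * (y * α)) (fun _ hy => conjL1 hα hL hy)
    (fun _ _ _ _ h => mul_right_cancel (mul_left_cancel h))

theorem pA_apply (y : L) : (pA hα hL y : Q) = α⁻¹ * ((y : Q) * α) := rfl

theorem pA_mul (y : L) : (y : Q) * α = α * (pA hα hL y : Q) := by
  rw [pA_apply, mul_inv_cancel_left]

theorem pA_pow (n : ℕ) (x : L) : α ^ n * (((pA hα hL) ^ n) x : Q) = (x : Q) * α ^ n := by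
  induction n with
  | zero => rw [pow_zero, pow_zero, mul_one, one_mul]; rfl
  | succ n ih =>
    have h : (((pA hα hL) ^ (n + 1)) x : L) = pA hα hL (((pA hα hL) ^ n) x) := by
      rw [pow_succ']; rfl
    rw [h, pow_succ α n, mul_assoc, ← pA_mul, ← mul_assoc, ih, mul_assoc]

include hα hL in
theorem rt_L (i : ℕ) : rt L (α ^ i) = lt (α ^ i) L := by
  ext x
  rw [mem_rt, mem_lt]
  constructor
  · intro h
    have := conjL hα hL (-(i : ℤ)) h
    rw [zpow_neg, zpow_natCast, inv_inv, mul_assoc, inv_mul_cancel_right] at this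
    exact this
  · intro h
    have := conjL hα hL (i : ℤ) h
    rw [zpow_natCast, mul_inv_cancel_left] at this
    exact this

include hα hL in
theorem lev_L {B : Lb.{u, v} Q} {a : B.L} (ha : B.q a = α) (n : ℕ) :
    lev a L n = ∑ i ∈ range n, (lt (α ^ i) L).val := by
  unfold lev
  exact Finset.sum_congr rfl fun i _ => by rw [ha, rt_L hα hL]

/-- The statement on the tokens. -/
theorem tk_tok {B : Lb.{u, v} Q} {a : B.L} {Dp : ℕ → L → Prop} {u₀ u₁ : Q} {f : Q → Q}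
    {path : Q → List B.L} {M : ℕ} (ht : Tk (pA hα hL) α a Dp u₀ u₁ f path M) (C : Q → Prop)
    (h0 : ∀ x : L, Dp 0 x ↔ C x) (hM : ∀ y : L, Dp M y → C (α ^ M * (y : Q) * (α ^ M)⁻¹)) :
    (∀ s ∈ L, s ≠ u₀ → s ≠ u₁ → C s → ∃ s' ∈ L, C s' ∧ f s = s' * α ^ M) ∧
    (∀ s ∈ L, s ≠ u₀ → s ≠ u₁ → ¬ C s → f s = s * α ^ M ∧ path s = reps a M) := by
  refine ⟨fun s hs e0 e1 hc => ?_, fun s hs e0 e1 hc => ?_⟩
  · obtain ⟨y, h1, h2⟩ := (ht ⟨s, hs⟩ e0 e1).1 ((h0 ⟨s, hs⟩).2 hc)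
    refine ⟨α ^ M * (y : Q) * (α ^ M)⁻¹, ?_, hM y h1, ?_⟩
    · have := conjL hα hL (M : ℤ) y.2
      rwa [zpow_natCast] at this
    · rw [inv_mul_cancel_right]
      exact h2
  · obtain ⟨h1, h2⟩ := (ht ⟨s, hs⟩ e0 e1).2 (fun h => hc ((h0 ⟨s, hs⟩).1 h))
    refine ⟨?_, h2⟩
    have h3 : f s = _ := h1
    rw [h3, pA_pow]

end centralModulo

namespace TW

variable {Q : Type u} [Group Q] [DecidableEq Q] {B : Lb.{u, v} Q}

/-- Another list of labels for the cup. -/
def setCup (X : TW B) (c : List B.L) (hc : B.fin X.u₀ c = X.u₁) : TW B := { X with cup := c, cup_fin := hc }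

/-- Another list of labels for the cap. -/
def setCap (X : TW B) (c : List B.L) (hc : B.fin X.w₀ c = X.w₁) : TW B := { X with cap := c, cap_fin := hc }

theorem setCup_R (X : TW B) (c : List B.L) (hc : B.fin X.u₀ c = X.u₁)
    (h : B.verts X.u₀ c = B.verts X.u₀ X.cup) : (X.setCup c hc).R = X.R := by
  unfold R
  show _ + (B.verts X.u₀ c : Multiset Q) + _ = _
  rw [h]
  rfl

theorem setCap_R (X : TW B) (c : List B.L) (hc : B.fin X.w₀ c = X.w₁)
    (h : B.verts X.w₀ c = B.verts X.w₀ X.cap) : (X.setCap c hc).R = X.R := by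
  have h1 : src B X.w₀ c = src B X.w₀ X.cap := by
    rw [verts_eq, verts_eq, hc, X.cap_fin] at h
    exact List.append_cancel_right h
  unfold R
  show _ + _ + ((src B X.w₀ c).tail : Multiset Q) = _
  rw [h1]
  rfl

theorem rect_tr {X : TW B} {a : B.L} {M : ℕ} (h : Rect a X M) (D : Q) : Rect a (X.tr D) M := by
  refine ⟨?_, ?_⟩
  · show lt D X.L₁ = rt (lt D X.L₀) _
    rw [h.top, lt_rt]
  · rw [tr_R, h.reg]
    unfold lev
    rw [← Multiset.coe_mapAddMonoidHom, map_sum]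
    refine Finset.sum_congr rfl fun i _ => ?_
    show _ = (rt (lt D X.L₀) (B.q a ^ i)).val
    rw [← lt_rt]
    rfl

end TW

end Pool.Agent.Lib.MP_688fd0_co.SQ2
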